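import Mathlib
import Pool.Agent.P.MP_2eaf66_an.Main

set_option autoImplicit false

namespace Pool.Agent.P.MP_2eaf66_an.Mo

open Finset

/-- The trigonometric polynomial with the coefficients `b n`, `|n| ≤ d`. -/
noncomputable def tp (d : ℕ) (b : ℤ → ℂ) (θ : ℝ) : ℂ :=
  ∑ n ∈ Icc (-(d : ℤ)) d, b n * Complex.exp (n * θ * Complex.I)

/-- The trigonometric polynomial is real and does not change sign between two neighbours of
any refinement of some uniform grid. -/
def Good (d : ℕ) (b : ℤ → ℂ) : Prop :=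
  (∀ θ : ℝ, (tp d b θ).im = 0) ∧ ∃ N0 : ℕ, 0 < N0 ∧ ∀ N : ℕ, 0 < N → N0 ∣ N → ∀ n : ℤ,
    0 ≤ (tp d b (2 * Real.pi * n / N)).re * (tp d b (2 * Real.pi * (n + 1) / N)).re

/-- The symbol of the central difference on the grid with `N` points. -/
noncomputable def wt (N : ℕ) (n : ℤ) : ℝ :=
  Real.sin (2 * Real.pi * n / N) / Real.sin (2 * Real.pi / N)

end Pool.Agent.P.MP_2eaf66_an.Mo
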