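import Mathlib

set_option autoImplicit false

namespace Pool.Agent.P.MP_2eaf66_an.Mo

open scoped ComplexConjugate ComplexOrder MatrixOrder
open Finset Matrix

variable {ι : Type} [Fintype ι] [DecidableEq ι]

theorem spec (A : Matrix ι ι ℂ) (hA : A.IsHermitian) :
    ∃ (V : Matrix ι ι ℂ) (l : ι → ℝ), Vᴴ * V = 1 ∧ V * Vᴴ = 1 ∧
      A = V * diagonal (fun i => (l i : ℂ)) * Vᴴ := by
  refine ⟨hA.eigenvectorUnitary, hA.eigenvalues, ?_, ?_, ?_⟩
  · exact hA.eigenvectorUnitary.2.1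
  · exact hA.eigenvectorUnitary.2.2
  · have := hA.spectral_theorem
    rw [Unitary.conjStarAlgAut_apply] at this
    exact this

theorem det_conj (V D : Matrix ι ι ℂ) (h : Vᴴ * V = 1) : (V * D * Vᴴ).det = D.det := by
  rw [det_mul_comm, ← Matrix.mul_assoc, h, Matrix.one_mul]

theorem diag_nonneg_of (V : Matrix ι ι ℂ) (l : ι → ℝ) (h : Vᴴ * V = 1)
    (hp : (V * diagonal (fun i => (l i : ℂ)) * Vᴴ).PosSemidef) (i : ι) : 0 ≤ l i := by
  have h1 := hp.conjTranspose_mul_mul_same V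
  have e : Vᴴ * (V * diagonal (fun i => (l i : ℂ)) * Vᴴ) * V = diagonal (fun i => (l i : ℂ)) := by
    calc _ = (Vᴴ * V) * diagonal (fun i => (l i : ℂ)) * (Vᴴ * V) := by
          simp only [Matrix.mul_assoc]
      _ = _ := by rw [h, Matrix.one_mul, Matrix.mul_one]
  rw [e, posSemidef_diagonal_iff] at h1
  exact_mod_cast h1 i

omit [Fintype ι] in
theorem psd_diag (l : ι → ℝ) (hl : ∀ i, 0 ≤ l i) :
    (diagonal (fun i => (l i : ℂ))).PosSemidef :=
  posSemidef_diagonal_iff.2 fun i => by exact_mod_cast hl i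

theorem one_le_det (E : Matrix ι ι ℂ) (hE : E.PosSemidef) : 1 ≤ (1 + E).det := by
  obtain ⟨V, l, h1, h2, rfl⟩ := spec E hE.1
  have hl := diag_nonneg_of V l h1 hE
  have e : 1 + V * diagonal (fun i => (l i : ℂ)) * Vᴴ
      = V * diagonal (fun i => ((1 + l i : ℝ) : ℂ)) * Vᴴ := by
    have : diagonal (fun i => ((1 + l i : ℝ) : ℂ)) = 1 + diagonal (fun i => (l i : ℂ)) := by
      rw [← diagonal_one, diagonal_add]; congr 1; ext i; push_cast; rfl
    rw [this, Matrix.mul_add, Matrix.add_mul, Matrix.mul_one, h2]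
  rw [e, det_conj _ _ h1, det_diagonal, ← Complex.ofReal_prod]
  have : (1 : ℝ) ≤ ∏ i, (1 + l i) := by
    calc (1 : ℝ) = ∏ _i : ι, (1 : ℝ) := by simp
      _ ≤ _ := prod_le_prod (fun _ _ => zero_le_one) fun i _ => by linarith [hl i]
  exact_mod_cast this

theorem det_add_factor {κ : Type} [Fintype κ] [DecidableEq κ] (P : Matrix ι ι ℂ) (hP : P.det ≠ 0)
    (G : Matrix κ ι ℂ) : (P + Gᴴ * G).det = P.det * (1 + G * P⁻¹ * Gᴴ).det := by
  have hu : IsUnit P.det := isUnit_iff_ne_zero.2 hP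
  have e : P + Gᴴ * G = P * (1 + (P⁻¹ * Gᴴ) * G) := by
    rw [Matrix.mul_add, Matrix.mul_one, ← Matrix.mul_assoc, ← Matrix.mul_assoc,
      Matrix.mul_nonsing_inv _ hu, Matrix.one_mul]
  rw [e, det_mul, det_one_add_mul_comm, Matrix.mul_assoc]

theorem det_mono (P Q : Matrix ι ι ℂ) (hP : P.PosSemidef) (hQ : (Q - P).PosSemidef) :
    P.det ≤ Q.det := by
  by_cases h0 : P.det = 0
  · have := hP.add hQ
    rw [add_sub_cancel] at this
    rw [h0]; exact this.det_nonneg
  · obtain ⟨G, hG⟩ := CStarAlgebra.nonneg_iff_eq_star_mul_self.1 hQ.nonneg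
    have e : Q = P + Gᴴ * G := by rw [← star_eq_conjTranspose, ← hG]; abel
    rw [e, det_add_factor P h0 G]
    have := one_le_det _ (hP.inv.mul_mul_conjTranspose_same G)
    simpa using mul_le_mul_of_nonneg_left this hP.det_nonneg

/-- Weyl's inequality between eigenvalues and singular values. -/
theorem weyl {J : Type} [Fintype J] [DecidableEq J] (N V : Matrix ι ι ℂ) (q : ι → ℝ)
    (h1 : Vᴴ * V = 1) (h2 : V * Vᴴ = 1) (hN : Nᴴ * N = V * diagonal (fun i => (q i : ℂ)) * Vᴴ)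
    (U : Matrix ι J ℂ) (mu : J → ℝ) (hU : N * U = U * diagonal (fun j => (mu j : ℂ)))
    (hG : (Uᴴ * U).det ≠ 0) : ∏ j, mu j ^ 2 ≤ ∏ i, max (q i) 1 := by
  set G := Uᴴ * U with hGd
  have hGp : G.PosSemidef := posSemidef_conjTranspose_mul_self U
  have hu : IsUnit G.det := isUnit_iff_ne_zero.2 hG
  set e : ι → ℝ := fun i => max (q i) 1 - 1 with he
  have he0 : ∀ i, 0 ≤ e i := fun i => sub_nonneg.2 (le_max_right _ _)
  set R : Matrix ι ι ℂ := diagonal (fun i => ((√(e i) : ℝ) : ℂ)) with hR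
  have hRh : Rᴴ = R := by
    rw [hR, diagonal_conjTranspose]; congr 1; ext i; simp
  have hRR : R * R = diagonal (fun i => (e i : ℂ)) := by
    rw [hR, diagonal_mul_diagonal]; congr 1; ext i
    rw [← Complex.ofReal_mul, Real.mul_self_sqrt (he0 i)]
  set F : Matrix ι ι ℂ := R * Vᴴ with hF
  have hFF : Fᴴ * F = V * diagonal (fun i => (e i : ℂ)) * Vᴴ := by
    rw [hF, conjTranspose_mul, conjTranspose_conjTranspose, hRh, ← hRR]
    simp only [Matrix.mul_assoc]
  have hFF' : F * Fᴴ = diagonal (fun i => (e i : ℂ)) := by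
    rw [hF, conjTranspose_mul, conjTranspose_conjTranspose, hRh, ← hRR]
    calc _ = R * (Vᴴ * V) * R := by simp only [Matrix.mul_assoc]
      _ = _ := by rw [h1, Matrix.mul_one]
  -- first step
  have a1 : (Uᴴ * (Nᴴ * N) * U).det = ((∏ j, mu j ^ 2 : ℝ) : ℂ) * G.det := by
    have : Uᴴ * (Nᴴ * N) * U = (N * U)ᴴ * (N * U) := by
      rw [conjTranspose_mul]; simp only [Matrix.mul_assoc]
    rw [this, hU, conjTranspose_mul]
    have e2 : (diagonal (fun j => (mu j : ℂ)))ᴴ * Uᴴ * (U * diagonal (fun j => (mu j : ℂ)))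
        = diagonal (fun j => (mu j : ℂ)) * G * diagonal (fun j => (mu j : ℂ)) := by
      have : (diagonal (fun j => (mu j : ℂ)))ᴴ = diagonal (fun j => (mu j : ℂ)) := by
        rw [diagonal_conjTranspose]; congr 1; ext i; simp
      rw [this, hGd]; simp only [Matrix.mul_assoc]
    rw [e2, det_mul, det_mul, det_diagonal]
    push_cast
    rw [prod_pow]; ring
  have a2 : (Uᴴ * (Nᴴ * N) * U).det ≤ (G + (F * U)ᴴ * (F * U)).det := by
    refine det_mono _ _ ((posSemidef_conjTranspose_mul_self N).conjTranspose_mul_mul_same U) ?_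
    have e3 : G + (F * U)ᴴ * (F * U) - Uᴴ * (Nᴴ * N) * U
        = Uᴴ * (V * diagonal (fun i => ((max (q i) 1 - q i : ℝ) : ℂ)) * Vᴴ) * U := by
      have d : diagonal (fun i => ((max (q i) 1 - q i : ℝ) : ℂ))
          = 1 + diagonal (fun i => (e i : ℂ)) - diagonal (fun i => (q i : ℂ)) := by
        rw [← diagonal_one, diagonal_add, diagonal_sub]; congr 1; ext i
        simp only [he]; push_cast; ring
      have d2 : (F * U)ᴴ * (F * U) = Uᴴ * (Fᴴ * F) * U := by
        rw [conjTranspose_mul]; simp only [Matrix.mul_assoc]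
      rw [d, d2, hFF, hN, Matrix.mul_sub, Matrix.mul_add, Matrix.sub_mul, Matrix.add_mul,
        Matrix.mul_one, h2, Matrix.mul_sub, Matrix.mul_add, Matrix.sub_mul, Matrix.add_mul,
        Matrix.mul_one]
    rw [e3]
    exact ((psd_diag _ fun i => sub_nonneg.2 (le_max_left _ _)).mul_mul_conjTranspose_same
      V).conjTranspose_mul_mul_same U
  have a3 : (1 + F * U * G⁻¹ * (F * U)ᴴ).det ≤ (1 + F * Fᴴ).det := by
    refine det_mono _ _ (PosSemidef.one.add (hGp.inv.mul_mul_conjTranspose_same _)) ?_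
    set P : Matrix ι ι ℂ := U * G⁻¹ * Uᴴ with hP
    have hPh : Pᴴ = P := (hGp.inv.mul_mul_conjTranspose_same U).1
    have hPP : P * P = P := by
      calc _ = U * (G⁻¹ * (Uᴴ * U)) * G⁻¹ * Uᴴ := by rw [hP]; simp only [Matrix.mul_assoc]
        _ = _ := by rw [← hGd, Matrix.nonsing_inv_mul _ hu, Matrix.mul_one]
    have e4 : 1 + F * Fᴴ - (1 + F * U * G⁻¹ * (F * U)ᴴ) = F * ((1 - P)ᴴ * (1 - P)) * Fᴴ := by
      have : (1 - P)ᴴ * (1 - P) = 1 - P := by
        rw [conjTranspose_sub, conjTranspose_one, hPh, Matrix.sub_mul, Matrix.mul_sub,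
          Matrix.mul_sub, hPP]
        simp
      rw [this, conjTranspose_mul F U, Matrix.mul_sub, Matrix.sub_mul, Matrix.mul_one, hP,
        add_sub_add_left_eq_sub]
      simp only [Matrix.mul_assoc]
    rw [e4]
    exact (posSemidef_conjTranspose_mul_self _).mul_mul_conjTranspose_same F
  have a4 : (1 + F * Fᴴ).det = ((∏ i, max (q i) 1 : ℝ) : ℂ) := by
    rw [hFF', ← diagonal_one, diagonal_add, det_diagonal, Complex.ofReal_prod]
    refine prod_congr rfl fun i _ => ?_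
    simp only [he]; push_cast; ring
  rw [a1, det_add_factor G hG] at a2
  have a5 := a2.trans (mul_le_mul_of_nonneg_left (a3.trans_eq a4) hGp.det_nonneg)
  have hpos : 0 < G.det := lt_of_le_of_ne hGp.det_nonneg (Ne.symm hG)
  rw [mul_comm] at a5
  have := le_of_mul_le_mul_left a5 hpos
  exact_mod_cast this

end Pool.Agent.P.MP_2eaf66_an.Mo
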