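import Mathlib
import Pool.Agent.P.MP_2eaf66_an.Mo.Defs

set_option autoImplicit false

namespace Pool.Agent.P.MP_2eaf66_an.Mo

open scoped ComplexConjugate ComplexOrder
open Finset Filter Topology

theorem scal_head (j : ℕ) (x : ℝ) (hx : 0 < x) :
    ∫ t in (0 : ℝ)..x, t ^ j * (Real.log x - Real.log t) = x ^ (j + 1) / ((j : ℝ) + 1) ^ 2 := by
  have hj : (j : ℝ) + 1 ≠ 0 := by positivity
  have i1 : IntervalIntegrable (fun t : ℝ => t ^ j * (Real.log x - Real.log t))
      MeasureTheory.volume 0 x :=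
    (intervalIntegrable_const.sub intervalIntegral.intervalIntegrable_log').continuousOn_mul
      (continuous_pow j).continuousOn
  have hc : Continuous fun t : ℝ => t ^ (j + 1) / ((j : ℝ) + 1) * Real.log x
      - t ^ (j + 1) * Real.log t / ((j : ℝ) + 1) + t ^ (j + 1) / ((j : ℝ) + 1) ^ 2 := by
    have h1 : Continuous fun t : ℝ => t ^ (j + 1) * Real.log t := by
      have h2 : Continuous fun t : ℝ => t ^ j * (t * Real.log t) :=
        (continuous_pow j).mul Real.continuous_mul_log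
      refine h2.congr fun t => ?_
      ring
    exact ((((continuous_pow (j + 1)).div_const _).mul continuous_const).sub
      (h1.div_const _)).add ((continuous_pow (j + 1)).div_const _)
  have hd : ∀ t ∈ Set.Ioo (0 : ℝ) x, HasDerivAt (fun t : ℝ => t ^ (j + 1) / ((j : ℝ) + 1)
      * Real.log x - t ^ (j + 1) * Real.log t / ((j : ℝ) + 1) + t ^ (j + 1) / ((j : ℝ) + 1) ^ 2)
      (t ^ j * (Real.log x - Real.log t)) t := by
    intro t ht
    have ht0 : t ≠ 0 := ht.1.ne'
    have hp : HasDerivAt (fun t : ℝ => t ^ (j + 1)) (((j : ℝ) + 1) * t ^ j) t := by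
      simpa using hasDerivAt_pow (j + 1) t
    have hl : HasDerivAt Real.log t⁻¹ t := Real.hasDerivAt_log ht0
    have h3 := (((hp.div_const ((j : ℝ) + 1)).mul_const (Real.log x)).fun_sub
      ((hp.fun_mul hl).div_const ((j : ℝ) + 1))).fun_add (hp.div_const (((j : ℝ) + 1) ^ 2))
    refine h3.congr_deriv ?_
    field_simp
    ring
  rw [intervalIntegral.integral_eq_sub_of_hasDerivAt_of_le hx.le hc.continuousOn hd i1]
  simp only [ne_eq, Nat.add_eq_zero_iff, one_ne_zero, and_false, not_false_eq_true, zero_pow]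
  ring

theorem scal_mono (j : ℕ) (x T : ℝ) (hx : 0 ≤ x) (hT : x ≤ T) :
    IntervalIntegrable (fun t : ℝ => t ^ j * Real.posLog (x / t)) MeasureTheory.volume 0 T ∧
      ∫ t in (0 : ℝ)..T, t ^ j * Real.posLog (x / t) = x ^ (j + 1) / ((j : ℝ) + 1) ^ 2 := by
  rcases hx.eq_or_lt with rfl | hx
  · simp
  have e1 : Set.EqOn (fun t : ℝ => t ^ j * (Real.log x - Real.log t))
      (fun t : ℝ => t ^ j * Real.posLog (x / t)) (Set.Ioo 0 x) := by
    intro t ht
    have h1 : 1 ≤ x / t := by rw [le_div_iff₀ ht.1]; linarith [ht.2]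
    have h2 : Real.posLog (x / t) = Real.log x - Real.log t := by
      rw [Real.posLog_eq_log (h1.trans (le_abs_self _)), Real.log_div hx.ne' ht.1.ne']
    simp only [h2]
  have e2 : Set.EqOn (fun _ : ℝ => (0 : ℝ))
      (fun t : ℝ => t ^ j * Real.posLog (x / t)) (Set.Ioo x T) := by
    intro t ht
    have ht0 : 0 < t := hx.trans ht.1
    have h1 : |x / t| ≤ 1 := by
      rw [abs_of_nonneg (div_nonneg hx.le ht0.le), div_le_one ht0]
      exact ht.1.le
    simp only [(Real.posLog_eq_zero_iff _).2 h1, mul_zero]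
  have i0 : IntervalIntegrable (fun t : ℝ => t ^ j * (Real.log x - Real.log t))
      MeasureTheory.volume 0 x :=
    (intervalIntegrable_const.sub intervalIntegral.intervalIntegrable_log').continuousOn_mul
      (continuous_pow j).continuousOn
  have i1 : IntervalIntegrable (fun t : ℝ => t ^ j * Real.posLog (x / t))
      MeasureTheory.volume 0 x :=
    i0.congr_uIoo (by rw [Set.uIoo_of_le hx.le]; exact e1)
  have i2 : IntervalIntegrable (fun t : ℝ => t ^ j * Real.posLog (x / t))
      MeasureTheory.volume x T :=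
    (intervalIntegrable_const (c := (0 : ℝ))).congr_uIoo (by rw [Set.uIoo_of_le hT]; exact e2)
  refine ⟨i1.trans i2, ?_⟩
  rw [← intervalIntegral.integral_add_adjacent_intervals i1 i2,
    ← intervalIntegral.integral_congr_Ioo_of_le hx.le e1,
    ← intervalIntegral.integral_congr_Ioo_of_le hT e2, scal_head j x hx]
  simp

theorem scal_small {ι : Type} [Fintype ι] (u v : ι → ℝ)
    (hprod : ∏ i, u i = ∏ i, v i) (t : ℝ) (ht : 0 < t) (hv : ∀ i, t < v i) :
    ∑ i, Real.posLog (v i / t) ≤ ∑ i, Real.posLog (u i / t) := by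
  have hv0 : ∀ i, v i ≠ 0 := fun i => (ht.trans (hv i)).ne'
  have hu0 : ∀ i, u i ≠ 0 := by
    have h1 : ∏ i, u i ≠ 0 := by
      rw [hprod]
      exact prod_ne_zero_iff.2 fun i _ => hv0 i
    exact fun i => prod_ne_zero_iff.1 h1 i (mem_univ i)
  have hlog : ∑ i, Real.log (v i) = ∑ i, Real.log (u i) := by
    rw [← Real.log_prod (fun i _ => hv0 i), ← Real.log_prod (fun i _ => hu0 i), hprod]
  calc ∑ i, Real.posLog (v i / t) = ∑ i, (Real.log (v i) - Real.log t) := by
        refine sum_congr rfl fun i _ => ?_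
        have h1 : 1 ≤ v i / t := by rw [le_div_iff₀ ht]; linarith [hv i]
        rw [Real.posLog_eq_log (h1.trans (le_abs_self _)), Real.log_div (hv0 i) ht.ne']
    _ = ∑ i, (Real.log (u i) - Real.log t) := by
        rw [sum_sub_distrib, sum_sub_distrib, hlog]
    _ ≤ ∑ i, Real.posLog (u i / t) := by
        refine sum_le_sum fun i _ => ?_
        rw [← Real.log_div (hu0 i) ht.ne', Real.posLog_apply]
        exact le_max_right _ _

theorem scalar {ι : Type} [Fintype ι] (u v : ι → ℝ) (hu : ∀ i, 0 ≤ u i) (hv : ∀ i, 0 ≤ v i)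
    (h : ∀ t : ℝ, 0 < t → ∑ i, Real.posLog (u i / t) ≤ ∑ i, Real.posLog (v i / t))
    (c : ℝ) (hc : ∀ i, c ≤ v i) (hprod : ∏ i, u i = ∏ i, v i)
    (p : Polynomial ℝ) (hp : ∀ x, c ≤ x → 0 ≤ p.eval x) :
    0 ≤ ∑ j ∈ range (p.natDegree + 1),
      p.coeff j / ((j : ℝ) + 1) ^ 2 * (∑ i, v i ^ (j + 1) - ∑ i, u i ^ (j + 1)) := by
  have su : 0 ≤ ∑ i, u i := sum_nonneg fun i _ => hu i
  have sv : 0 ≤ ∑ i, v i := sum_nonneg fun i _ => hv i
  obtain ⟨T, hT0, huT, hvT⟩ : ∃ T : ℝ, 0 ≤ T ∧ (∀ i, u i ≤ T) ∧ ∀ i, v i ≤ T := by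
    refine ⟨∑ i, u i + ∑ i, v i, add_nonneg su sv, fun i => ?_, fun i => ?_⟩
    · linarith [single_le_sum (f := u) (fun i _ => hu i) (mem_univ i)]
    · linarith [single_le_sum (f := v) (fun i _ => hv i) (mem_univ i)]
  have key : ∀ (w : ι → ℝ), (∀ i, 0 ≤ w i) → (∀ i, w i ≤ T) → ∀ j : ℕ,
      IntervalIntegrable (fun t : ℝ => ∑ i, t ^ j * Real.posLog (w i / t))
        MeasureTheory.volume 0 T ∧
      ∫ t in (0 : ℝ)..T, ∑ i, t ^ j * Real.posLog (w i / t)
        = (∑ i, w i ^ (j + 1)) / ((j : ℝ) + 1) ^ 2 := by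
    intro w h0 h1 j
    constructor
    · have h2 := IntervalIntegrable.sum (univ : Finset ι)
        (f := fun i t => t ^ j * Real.posLog (w i / t))
        (fun i _ => (scal_mono j (w i) T (h0 i) (h1 i)).1)
      refine h2.congr fun t _ => ?_
      simp only [Finset.sum_apply]
    · rw [intervalIntegral.integral_finsetSum
        (fun i _ => (scal_mono j (w i) T (h0 i) (h1 i)).1), sum_div]
      exact sum_congr rfl fun i _ => (scal_mono j (w i) T (h0 i) (h1 i)).2
  have hint : ∀ j : ℕ, IntervalIntegrable (fun t : ℝ => p.coeff j *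
      (∑ i, t ^ j * Real.posLog (v i / t) - ∑ i, t ^ j * Real.posLog (u i / t)))
      MeasureTheory.volume 0 T :=
    fun j => ((key v hv hvT j).1.sub (key u hu huT j).1).const_mul _
  have hval : ∑ j ∈ range (p.natDegree + 1),
      p.coeff j / ((j : ℝ) + 1) ^ 2 * (∑ i, v i ^ (j + 1) - ∑ i, u i ^ (j + 1))
      = ∫ t in (0 : ℝ)..T, ∑ j ∈ range (p.natDegree + 1), p.coeff j *
        (∑ i, t ^ j * Real.posLog (v i / t) - ∑ i, t ^ j * Real.posLog (u i / t)) := by
    rw [intervalIntegral.integral_finsetSum (fun j _ => hint j)]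
    refine sum_congr rfl fun j _ => ?_
    rw [intervalIntegral.integral_const_mul,
      intervalIntegral.integral_sub (key v hv hvT j).1 (key u hu huT j).1,
      (key v hv hvT j).2, (key u hu huT j).2]
    ring
  rw [hval]
  refine intervalIntegral.integral_nonneg hT0 fun t ht => ?_
  have e : ∑ j ∈ range (p.natDegree + 1), p.coeff j *
      (∑ i, t ^ j * Real.posLog (v i / t) - ∑ i, t ^ j * Real.posLog (u i / t))
      = p.eval t * (∑ i, Real.posLog (v i / t) - ∑ i, Real.posLog (u i / t)) := by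
    rw [Polynomial.eval_eq_sum_range, sum_mul]
    refine sum_congr rfl fun j _ => ?_
    rw [← mul_sum, ← mul_sum]
    ring
  rw [e]
  rcases ht.1.eq_or_lt with rfl | ht0
  · simp
  rcases le_or_gt c t with hct | hct
  · exact mul_nonneg (hp t hct) (sub_nonneg.2 (h t ht0))
  · have h1 := scal_small u v hprod t ht0 fun i => hct.trans_le (hc i)
    rw [le_antisymm h1 (h t ht0), sub_self, mul_zero]

end Pool.Agent.P.MP_2eaf66_an.Mo
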