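import Mathlib
import Pool.Agent.P.MP_2eaf66_an.Mo.Det
import Pool.Agent.P.MP_2eaf66_an.Mo.Scal

set_option autoImplicit false

namespace Pool.Agent.P.MP_2eaf66_an.Mo

open scoped ComplexConjugate ComplexOrder MatrixOrder
open Finset Matrix

variable {ι : Type} [Fintype ι] [DecidableEq ι]

theorem conj_pow (V D : Matrix ι ι ℂ) (h : Vᴴ * V = 1) (n : ℕ) :
    (V * D * Vᴴ) ^ (n + 1) = V * D ^ (n + 1) * Vᴴ := by
  induction n with
  | zero => simp
  | succ n ih =>
    rw [pow_succ, ih, pow_succ D (n + 1)]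
    calc _ = V * D ^ (n + 1) * (Vᴴ * V) * D * Vᴴ := by simp only [Matrix.mul_assoc]
      _ = _ := by rw [h, Matrix.mul_one]; simp only [Matrix.mul_assoc]

theorem trace_conj_pow (V : Matrix ι ι ℂ) (l : ι → ℝ) (h : Vᴴ * V = 1) (n : ℕ) :
    ((V * diagonal (fun i => (l i : ℂ)) * Vᴴ) ^ (n + 1)).trace
      = ((∑ i, l i ^ (n + 1) : ℝ) : ℂ) := by
  rw [conj_pow _ _ h, trace_mul_comm, ← Matrix.mul_assoc, h, Matrix.one_mul, diagonal_pow,
    trace_diagonal]
  push_cast; rfl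

theorem trace_pow_comm (A B : Matrix ι ι ℂ) (n : ℕ) :
    ((A * B) ^ (n + 1)).trace = ((B * A) ^ (n + 1)).trace := by
  rw [pow_succ, ← Matrix.mul_assoc, mul_pow_mul, trace_mul_comm, pow_succ', Matrix.mul_assoc]

theorem logmaj (C σ H V W : Matrix ι ι ℂ) (hH : Hᴴ = H) (hH2 : H * H = 1) (lam mu : ι → ℝ)
    (hV1 : Vᴴ * V = 1) (hV2 : V * Vᴴ = 1)
    (hX : Cᴴ * σ * C = V * diagonal (fun i => (lam i : ℂ)) * Vᴴ) (hW1 : Wᴴ * W = 1)
    (hY : σ * C * H * Cᴴ = W * diagonal (fun i => (mu i : ℂ)) * Wᴴ) (t : ℝ) (ht : 0 < t) :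
    ∑ i, Real.posLog (mu i ^ 2 / t) ≤ ∑ i, Real.posLog (lam i ^ 2 / t) := by
  classical
  let J := {i : ι // t < mu i ^ 2}
  set WJ : Matrix ι J ℂ := W.submatrix id Subtype.val with hWJ
  have hYW : σ * C * H * Cᴴ * W = W * diagonal (fun i => (mu i : ℂ)) := by
    rw [hY, Matrix.mul_assoc, hW1, Matrix.mul_one]
  have hYJ : σ * C * H * Cᴴ * WJ = WJ * diagonal (fun j : J => (mu j : ℂ)) := by
    ext i j
    have := congrFun (congrFun hYW i) j
    rw [mul_diagonal] at this ⊢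
    rw [hWJ, submatrix_apply, id, ← this]
    rfl
  have hJJ : WJᴴ * WJ = 1 := by
    ext i j
    have := congrFun (congrFun hW1 i) j
    have e : (WJᴴ * WJ) i j = (Wᴴ * W) i j := rfl
    rw [e, this, one_apply, one_apply]
    exact if_congr Subtype.ext_iff.symm rfl rfl
  have hmu : ∀ j : J, mu j ≠ 0 := by
    intro j h
    have := j.2
    rw [h] at this
    linarith
  set U : Matrix ι J ℂ := H * Cᴴ * WJ with hU
  have hL : (diagonal (fun j : J => ((mu j : ℂ))⁻¹) * WJᴴ * σ * C) * U = 1 := by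
    calc _ = diagonal (fun j : J => ((mu j : ℂ))⁻¹) * (WJᴴ * (σ * C * H * Cᴴ * WJ)) := by
          rw [hU]; simp only [Matrix.mul_assoc]
      _ = 1 := by
          rw [hYJ, ← Matrix.mul_assoc WJᴴ, hJJ, Matrix.one_mul, diagonal_mul_diagonal,
            ← diagonal_one]
          congr 1; ext j
          exact inv_mul_cancel₀ (by exact_mod_cast hmu j)
  have hinj : Function.Injective U.mulVec := by
    refine Function.LeftInverse.injective
      (g := (diagonal (fun j : J => ((mu j : ℂ))⁻¹) * WJᴴ * σ * C).mulVec) fun x => ?_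
    rw [mulVec_mulVec, hL, one_mulVec]
  have hG : (Uᴴ * U).det ≠ 0 := (PosDef.conjTranspose_mul_self U hinj).det_pos.ne'
  set r : ℝ := (√t)⁻¹ with hr
  have hrr : r * r = t⁻¹ := by rw [hr, ← mul_inv, Real.mul_self_sqrt ht.le]
  set D : Matrix ι ι ℂ := diagonal (fun i => (lam i : ℂ)) with hD
  have hDh : Dᴴ = D := by rw [hD, diagonal_conjTranspose]; congr 1; ext i; simp
  have hN : ((r : ℂ) • (H * (Cᴴ * σ * C)))ᴴ * ((r : ℂ) • (H * (Cᴴ * σ * C)))
      = V * diagonal (fun i => ((lam i ^ 2 / t : ℝ) : ℂ)) * Vᴴ := by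
    have d : diagonal (fun i => ((lam i ^ 2 / t : ℝ) : ℂ)) = ((r : ℂ) * r) • (D * D) := by
      rw [hD, diagonal_mul_diagonal, ← diagonal_smul]; congr 1; ext i
      rw [← Complex.ofReal_mul, hrr]; simp only [Pi.smul_apply, smul_eq_mul]; push_cast; ring
    rw [d, hX, conjTranspose_smul, Matrix.smul_mul, Matrix.mul_smul, smul_smul, Matrix.mul_smul,
      Matrix.smul_mul]
    congr 1
    · simp
    · rw [conjTranspose_mul, hH, conjTranspose_mul, conjTranspose_mul, conjTranspose_conjTranspose,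
        hDh]
      calc _ = V * D * (Vᴴ * ((H * H) * V)) * D * Vᴴ := by simp only [Matrix.mul_assoc]
        _ = _ := by rw [hH2, Matrix.one_mul, hV1, Matrix.mul_one]; simp only [Matrix.mul_assoc]
  have hNU : ((r : ℂ) • (H * (Cᴴ * σ * C))) * U
      = U * diagonal (fun j : J => ((r * mu j : ℝ) : ℂ)) := by
    have d : diagonal (fun j : J => ((r * mu j : ℝ) : ℂ))
        = (r : ℂ) • diagonal (fun j : J => (mu j : ℂ)) := by
      rw [← diagonal_smul]; congr 1; ext i; simp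
    rw [d, Matrix.smul_mul, Matrix.mul_smul]
    congr 1
    calc _ = H * Cᴴ * (σ * C * H * Cᴴ * WJ) := by rw [hU]; simp only [Matrix.mul_assoc]
      _ = _ := by rw [hYJ, hU]; simp only [Matrix.mul_assoc]
  have key := weyl _ V _ hV1 hV2 hN U _ hNU hG
  have e1 : ∀ j : J, (r * mu j) ^ 2 = mu j ^ 2 / t := fun j => by
    rw [mul_pow, sq r, hrr]; ring
  simp only [e1] at key
  have hpos : ∀ j : J, 1 < mu j ^ 2 / t := fun j => (one_lt_div ht).2 j.2
  have k2 := Real.log_le_log (prod_pos fun j _ => zero_lt_one.trans (hpos j)) key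
  rw [Real.log_prod (fun j _ => (zero_lt_one.trans (hpos j)).ne'),
    Real.log_prod (fun i _ => (zero_lt_one.trans_le (le_max_right _ _)).ne')] at k2
  have e2 : ∑ i, Real.posLog (mu i ^ 2 / t) = ∑ j : J, Real.log (mu j ^ 2 / t) := by
    rw [← sum_subtype (univ.filter fun i => t < mu i ^ 2) (by simp)
      (fun i => Real.log (mu i ^ 2 / t)), sum_filter]
    refine sum_congr rfl fun i _ => ?_
    split_ifs with h
    · exact Real.posLog_eq_log (by
        rw [abs_of_nonneg (by positivity)]; exact ((one_lt_div ht).2 h).le)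
    · exact (Real.posLog_eq_zero_iff _).2 (by
        rw [abs_of_nonneg (by positivity)]; exact (div_le_one ht).2 (not_lt.1 h))
  rw [e2]
  refine k2.trans_eq (sum_congr rfl fun i _ => ?_)
  rw [Real.posLog_eq_log_max_one (by positivity), max_comm]

/-- The matrix form of the moment inequality. -/
theorem mt (C σ H : Matrix ι ι ℂ) (hσ : σᴴ = σ) (hH : Hᴴ = H) (hH2 : H * H = 1)
    (hY : (σ * C * H * Cᴴ).IsHermitian) (δ : ℝ)
    (hδ : δ = 0 ∨ (0 ≤ δ ∧ (Cᴴ * σ * C - (δ : ℂ) • (1 : Matrix ι ι ℂ)).PosSemidef))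
    (p : Polynomial ℝ) (hp : ∀ x, δ ^ 2 ≤ x → 0 ≤ p.eval x) :
    0 ≤ ∑ j ∈ range (p.natDegree + 1), p.coeff j / ((j : ℝ) + 1) ^ 2 *
      (((Cᴴ * σ * C) ^ (2 * j + 1 + 1)).trace
        - ((Cᴴ * σ * C * H) ^ (2 * j + 1 + 1)).trace).re := by
  have hXh : (Cᴴ * σ * C).IsHermitian := isHermitian_conjTranspose_mul_mul C hσ
  obtain ⟨V, lam, hV1, hV2, hX⟩ := spec _ hXh
  obtain ⟨W, mu, hW1, hW2, hYe⟩ := spec _ hY
  have hc : ∀ i, δ ^ 2 ≤ lam i ^ 2 := by
    intro i
    rcases hδ with h | ⟨h0, h⟩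
    · rw [h]; simpa using sq_nonneg (lam i)
    · have e : Cᴴ * σ * C - (δ : ℂ) • (1 : Matrix ι ι ℂ)
          = V * diagonal (fun i => ((lam i - δ : ℝ) : ℂ)) * Vᴴ := by
        have d : diagonal (fun i => ((lam i - δ : ℝ) : ℂ))
            = diagonal (fun i => (lam i : ℂ)) - (δ : ℂ) • (1 : Matrix ι ι ℂ) := by
          rw [← diagonal_one, ← diagonal_smul, diagonal_sub]; congr 1; ext i; simp
        rw [d, Matrix.mul_sub, Matrix.sub_mul, ← hX, Matrix.mul_smul, Matrix.smul_mul,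
          Matrix.mul_one, hV2]
      rw [e] at h
      have := diag_nonneg_of V _ hV1 h i
      exact pow_le_pow_left₀ h0 (by linarith) 2
  have hprod : ∏ i, mu i ^ 2 = ∏ i, lam i ^ 2 := by
    have d1 := congrArg Matrix.det hX
    have d2 := congrArg Matrix.det hYe
    have d3 := congrArg Matrix.det hH2
    rw [det_conj _ _ hV1, det_diagonal, det_mul, det_mul] at d1
    rw [det_conj _ _ hW1, det_diagonal, det_mul, det_mul, det_mul] at d2
    rw [det_mul, det_one] at d3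
    have : (∏ i, (mu i : ℂ)) ^ 2 = (∏ i, (lam i : ℂ)) ^ 2 := by
      rw [← d1, ← d2]
      calc _ = (Cᴴ.det * σ.det * C.det) ^ 2 * (H.det * H.det) := by ring
        _ = _ := by rw [d3, mul_one]
    rw [prod_pow, prod_pow]
    exact_mod_cast this
  have key := scalar (fun i => mu i ^ 2) (fun i => lam i ^ 2) (fun i => sq_nonneg _)
    (fun i => sq_nonneg _) (logmaj C σ H V W hH hH2 lam mu hV1 hV2 hX hW1 hYe) (δ ^ 2) hc hprod
    p hp
  refine key.trans_eq (sum_congr rfl fun j _ => ?_)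
  congr 1
  have e : ((Cᴴ * σ * C * H) ^ (2 * j + 1 + 1)).trace
      = ((σ * C * H * Cᴴ) ^ (2 * j + 1 + 1)).trace := by
    rw [← trace_pow_comm Cᴴ (σ * C * H)]; simp only [Matrix.mul_assoc]
  rw [e, hYe, hX, trace_conj_pow _ _ hV1, trace_conj_pow _ _ hW1, ← Complex.ofReal_sub,
    Complex.ofReal_re]
  simp only [← pow_mul]
  rfl

end Pool.Agent.P.MP_2eaf66_an.Mo
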