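import Mathlib
import Pool.Agent.P.MP_2eaf66_an.Mo.Defs
import Pool.Agent.P.MP_2eaf66_an.Mo.Mt

set_option autoImplicit false

namespace Pool.Agent.P.MP_2eaf66_an.Mo

open scoped ComplexConjugate ComplexOrder
open Finset Matrix

variable {N : ℕ} [NeZero N]

/-- The entries of the circulant matrix. -/
noncomputable def be (d : ℕ) (b : ℤ → ℂ) (r : ZMod N) : ℂ :=
  ∑ m ∈ Icc (-(d : ℤ)) d, if (m : ZMod N) = r then b m else 0

theorem cyc_trace (d : ℕ) (b : ℤ → ℂ) (ω : ZMod N → ℂ) (K : Matrix (ZMod N) (ZMod N) ℂ)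
    (hK : ∀ x y, K x y = ω x * be d b (y - x)) (r : ℕ) (hN : (r + 1) * d < N) :
    (K ^ (r + 1)).trace = ∑ m ∈ Fintype.piFinset (fun _ : Fin (r + 1) => Icc (-(d : ℤ)) d),
      if ∑ i, m i = 0 then
        (∏ i, b (m i)) * ∑ x : ZMod N, ∏ i, ω (x + ((∑ j ∈ Iio i, m j : ℤ) : ZMod N)) else 0 := by
  rw [trace_pow_path]
  have e1 : ∀ p : Fin (r + 1) → ZMod N, ∏ i, K (p i) (p (i + 1))
      = ∑ m ∈ Fintype.piFinset (fun _ : Fin (r + 1) => Icc (-(d : ℤ)) d),
        ∏ i, (ω (p i) * if (m i : ZMod N) = p (i + 1) - p i then b (m i) else 0) := by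
    intro p
    simp only [hK, be, mul_sum]
    exact prod_univ_sum _ _
  simp only [e1]
  rw [sum_comm]
  refine sum_congr rfl fun m hm => ?_
  have h0 : Iio (0 : Fin (r + 1)) = ∅ := by ext j; simp
  split_ifs with hs
  · rw [mul_sum]
    symm
    refine sum_of_injOn (fun (x : ZMod N) (i : Fin (r + 1)) => x + ((∑ j ∈ Iio i, m j : ℤ) : ZMod N))
      ?_ (fun _ _ => by simp) ?_ ?_
    · intro x _ y _ h
      have := congrFun h 0
      simpa [h0] using this
    · intro p _ hp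
      by_contra hne
      apply hp
      have hall : ∀ i, (m i : ZMod N) = p (i + 1) - p i := by
        intro i
        by_contra hc
        exact hne (prod_eq_zero (mem_univ i) (by rw [if_neg hc, mul_zero]))
      refine ⟨p 0, by simp, ?_⟩
      ext i
      refine Fin.induction ?_ (fun i ih => ?_) i
      · simp [h0]
      · simp only at ih ⊢
        rw [psum_succ, Int.cast_add, ← add_assoc, ih, hall, Fin.coeSucc_eq_succ]; ring
    · intro x _
      rw [← prod_mul_distrib]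
      refine prod_congr rfl fun i _ => ?_
      rw [if_pos, mul_comm]
      rw [add_sub_add_left_eq_sub, ← Int.cast_sub, psum_step m hs i]
  · refine sum_eq_zero fun p _ => ?_
    by_contra hne
    apply hs
    have hall : ∀ i, (m i : ZMod N) = p (i + 1) - p i := by
      intro i
      by_contra hc
      exact hne (prod_eq_zero (mem_univ i) (by rw [if_neg hc, mul_zero]))
    have h1 : ((∑ i, m i : ℤ) : ZMod N) = 0 := by
      rw [Int.cast_sum]
      simp only [hall]
      rw [sum_sub_distrib, sub_eq_zero]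
      exact Equiv.sum_comp (Equiv.addRight (1 : Fin (r + 1))) p
    rw [ZMod.intCast_zmod_eq_zero_iff_dvd] at h1
    refine Int.eq_zero_of_abs_lt_dvd h1 ?_
    have h2 : |∑ i, m i| ≤ ∑ _i : Fin (r + 1), (d : ℤ) :=
      (abs_sum_le_sum_abs _ _).trans (sum_le_sum fun i _ =>
        abs_le.2 (mem_Icc.1 (Fintype.mem_piFinset.1 hm i)))
    rw [sum_const, card_univ, Fintype.card_fin, nsmul_eq_mul] at h2
    have h3 : (((r + 1) * d : ℕ) : ℤ) < N := by exact_mod_cast hN
    push_cast at h2 h3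
    linarith

/-- The symbol on the dual grid. -/
noncomputable def wz (x : ZMod N) : ℝ :=
  (ZMod.stdAddChar x).im / Real.sin (2 * Real.pi / N)

theorem chr_cast (n : ℤ) : ZMod.stdAddChar (n : ZMod N)
    = Complex.exp (((2 * Real.pi * n / N : ℝ) : ℂ) * Complex.I) := by
  rw [ZMod.stdAddChar_coe]; congr 1; push_cast; ring

theorem wz_cast (n : ℤ) : wz (n : ZMod N) = wt N n := by
  rw [wz, wt, chr_cast, Complex.exp_ofReal_mul_I_im]

theorem chr_conj (x : ZMod N) : conj (ZMod.stdAddChar x) = ZMod.stdAddChar (-x) := by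
  rw [← ZMod.intCast_zmod_cast x, ← Int.cast_neg, chr_cast, chr_cast, ← Complex.exp_conj]
  congr 1
  simp only [map_mul, Complex.conj_ofReal, Complex.conj_I]
  push_cast; ring

theorem chr_sum (r : ZMod N) :
    ∑ x : ZMod N, ZMod.stdAddChar (x * r) = if r = 0 then (N : ℂ) else 0 := by
  rw [AddChar.sum_mulShift r (ZMod.isPrimitive_stdAddChar N), ZMod.card]
  split_ifs <;> simp

/-- The values on the grid. -/
noncomputable def az (d : ℕ) (b : ℤ → ℂ) (j : ZMod N) : ℂ :=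
  ∑ m ∈ Icc (-(d : ℤ)) d, b m * ZMod.stdAddChar (j * (m : ZMod N))

theorem az_cast (d : ℕ) (b : ℤ → ℂ) (n : ℤ) :
    az d b (n : ZMod N) = tp d b (2 * Real.pi * n / N) := by
  refine sum_congr rfl fun m _ => ?_
  rw [← Int.cast_mul, chr_cast]
  congr 2; push_cast; ring

/-- The sign, with value one at zero. -/
noncomputable def sr (t : ℝ) : ℝ := if 0 ≤ t then 1 else -1

theorem sr_sq (t : ℝ) : sr t * sr t = 1 := by unfold sr; split_ifs <;> simp

theorem sr_mul (t : ℝ) : √|t| * sr t * √|t| = t := by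
  rw [mul_right_comm, Real.mul_self_sqrt (abs_nonneg t)]
  unfold sr; split_ifs with h
  · rw [abs_of_nonneg h, mul_one]
  · rw [abs_of_neg (not_le.1 h)]; ring

theorem sr_comm (s t : ℝ) (h : 0 ≤ s * t) :
    sr s * (√|s| * √|t|) = (√|s| * √|t|) * sr t := by
  rcases eq_or_ne s 0 with rfl | hs
  · simp
  rcases eq_or_ne t 0 with rfl | ht
  · simp
  rw [mul_comm]; congr 1
  unfold sr
  rcases lt_or_gt_of_ne hs with a | a <;> rcases lt_or_gt_of_ne ht with c | c
  · rw [if_neg (not_le.2 a), if_neg (not_le.2 c)]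
  · exact absurd h (not_le.2 (mul_neg_of_neg_of_pos a c))
  · exact absurd h (not_le.2 (mul_neg_of_pos_of_neg a c))
  · rw [if_pos a.le, if_pos c.le]

/-- The factor of the grid model. -/
noncomputable def Cm (a : ZMod N → ℝ) : Matrix (ZMod N) (ZMod N) ℂ := fun j x =>
  ((√|a j| : ℝ) : ℂ) * ZMod.stdAddChar (-(j * x)) * ((√|wz x| : ℝ) : ℂ) * (((√N)⁻¹ : ℝ) : ℂ)

theorem inv_sqrt_sq : (((√N)⁻¹ : ℝ) : ℂ) * (((√N)⁻¹ : ℝ) : ℂ) * N = 1 := by
  have h : (0 : ℝ) < N := by exact_mod_cast Nat.pos_of_ne_zero (NeZero.ne N)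
  rw [← Complex.ofReal_mul, ← mul_inv, Real.mul_self_sqrt h.le]
  push_cast
  exact inv_mul_cancel₀ (by exact_mod_cast h.ne')

theorem X_apply (d : ℕ) (b : ℤ → ℂ) (a : ZMod N → ℝ) (ha : ∀ j, (a j : ℂ) = az d b j)
    (x y : ZMod N) :
    ((Cm a)ᴴ * diagonal (fun j => (sr (a j) : ℂ)) * Cm a) x y
      = ((√|wz x| : ℝ) : ℂ) * be d b (y - x) * ((√|wz y| : ℝ) : ℂ) := by
  rw [Matrix.mul_apply]
  simp only [mul_diagonal, conjTranspose_apply, Cm, RCLike.star_def, map_mul, Complex.conj_ofReal,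
    chr_conj, neg_neg]
  set c : ℂ := (((√N)⁻¹ : ℝ) : ℂ) with hc
  have e : ∀ j : ZMod N, ((√|a j| : ℝ) : ℂ) * ZMod.stdAddChar (j * x) * ((√|wz x| : ℝ) : ℂ) * c
        * (sr (a j) : ℂ) * (((√|a j| : ℝ) : ℂ) * ZMod.stdAddChar (-(j * y))
          * ((√|wz y| : ℝ) : ℂ) * c)
      = ((√|wz x| : ℝ) : ℂ) * ((√|wz y| : ℝ) : ℂ) * (c * c) *
        ∑ m ∈ Icc (-(d : ℤ)) d, b m * ZMod.stdAddChar (j * ((m : ZMod N) + x - y)) := by
    intro j
    have h1 : ((√|a j| : ℝ) : ℂ) * (sr (a j) : ℂ) * ((√|a j| : ℝ) : ℂ) = az d b j := by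
      rw [← ha, ← Complex.ofReal_mul, ← Complex.ofReal_mul, sr_mul]
    have h2 : ∑ m ∈ Icc (-(d : ℤ)) d, b m * ZMod.stdAddChar (j * ((m : ZMod N) + x - y))
        = az d b j * (ZMod.stdAddChar (j * x) * ZMod.stdAddChar (-(j * y))) := by
      rw [az, sum_mul]
      refine sum_congr rfl fun m _ => ?_
      rw [mul_assoc, ← AddChar.map_add_eq_mul, ← AddChar.map_add_eq_mul]
      congr 2; ring
    rw [h2, ← h1]; ring
  simp only [e]
  rw [← mul_sum, sum_comm]
  simp only [← mul_sum, chr_sum]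
  have h3 : ∑ m ∈ Icc (-(d : ℤ)) d, b m * (if (m : ZMod N) + x - y = 0 then (N : ℂ) else 0)
      = N * be d b (y - x) := by
    rw [be, mul_sum]
    refine sum_congr rfl fun m _ => ?_
    by_cases h : (m : ZMod N) = y - x
    · rw [if_pos h, if_pos (by rw [h]; ring), mul_comm]
    · rw [if_neg h, if_neg (fun h' => h (by linear_combination h')), mul_zero, mul_zero]
  rw [h3]
  linear_combination ((√|wz x| : ℝ) : ℂ) * ((√|wz y| : ℝ) : ℂ) * be d b (y - x) * inv_sqrt_sq (N := N)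

theorem G_apply (a : ZMod N → ℝ) (j l : ZMod N) : ∃ g : ℂ,
    (Cm a * diagonal (fun x : ZMod N => (sr (wz x) : ℂ)) * (Cm a)ᴴ) j l
      = ((√|a j| * √|a l| : ℝ) : ℂ) * g ∧ (l ≠ j + 1 → j ≠ l + 1 → g = 0) := by
  set c : ℂ := (((√N)⁻¹ : ℝ) : ℂ) with hc
  refine ⟨c * c * ∑ x : ZMod N, (wz x : ℂ) * ZMod.stdAddChar (x * (l - j)), ?_, fun h1 h2 => ?_⟩
  · rw [Matrix.mul_apply, mul_sum, mul_sum]
    refine sum_congr rfl fun x _ => ?_
    simp only [mul_diagonal, conjTranspose_apply, Cm, RCLike.star_def, map_mul,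
      Complex.conj_ofReal, chr_conj, neg_neg]
    have h1 : ((√|wz x| : ℝ) : ℂ) * (sr (wz x) : ℂ) * ((√|wz x| : ℝ) : ℂ) = wz x := by
      rw [← Complex.ofReal_mul, ← Complex.ofReal_mul, sr_mul]
    have h2 : ZMod.stdAddChar (x * (l - j))
        = ZMod.stdAddChar (-(j * x)) * ZMod.stdAddChar (l * x) := by
      rw [← AddChar.map_add_eq_mul]; congr 1; ring
    rw [h2, ← h1, ← hc]
    push_cast
    rw [h1]
    linear_combination (((√|a j| : ℝ) : ℂ) * ((√|a l| : ℝ) : ℂ) * c * c *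
      ZMod.stdAddChar (-(j * x)) * ZMod.stdAddChar (l * x)) * h1
  · have e : ∀ x : ZMod N, (wz x : ℂ) * ZMod.stdAddChar (x * (l - j))
        = (2 * Complex.I * Real.sin (2 * Real.pi / N))⁻¹ *
          (ZMod.stdAddChar (x * (l - j + 1)) - ZMod.stdAddChar (x * (l - j - 1))) := by
      intro x
      have a1 : ZMod.stdAddChar (x * (l - j + 1))
          = ZMod.stdAddChar x * ZMod.stdAddChar (x * (l - j)) := by
        rw [← AddChar.map_add_eq_mul]; congr 1; ring
      have a2 : ZMod.stdAddChar (x * (l - j - 1))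
          = conj (ZMod.stdAddChar x) * ZMod.stdAddChar (x * (l - j)) := by
        rw [chr_conj, ← AddChar.map_add_eq_mul]; congr 1; ring
      rw [a1, a2, ← sub_mul, Complex.sub_conj, wz, ← mul_assoc]
      congr 1
      rw [Complex.ofReal_div, Complex.ofReal_mul, mul_inv, mul_inv]
      have hI : Complex.I⁻¹ * Complex.I = 1 := inv_mul_cancel₀ Complex.I_ne_zero
      rw [div_eq_mul_inv]
      have h2 : ((2 : ℝ) : ℂ) = 2 := by norm_num
      rw [h2]
      linear_combination (-(((ZMod.stdAddChar x).im : ℂ) *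
        ((Real.sin (2 * Real.pi / N) : ℝ) : ℂ)⁻¹)) * hI
    simp only [e]
    rw [← mul_sum, sum_sub_distrib, chr_sum, chr_sum,
      if_neg (fun h => h2 (by linear_combination -h)),
      if_neg (fun h => h1 (by linear_combination h))]
    simp

theorem sum_zmod (g : ZMod N → ℂ) : ∑ x : ZMod N, g x = ∑ x ∈ range N, g ((x : ℤ) : ZMod N) := by
  refine sum_nbij' (fun x => x.val) (fun x => (x : ZMod N)) ?_ ?_ ?_ ?_ ?_
  · intro x _; exact mem_range.2 (ZMod.val_lt x)
  · intro x _; exact mem_univ _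
  · intro x _; exact ZMod.natCast_zmod_val x
  · intro x hx; exact ZMod.val_cast_of_lt (mem_range.1 hx)
  · intro x _; simp

theorem cyc_ineq (d : ℕ) (b : ℤ → ℂ) (hre : ∀ θ : ℝ, (tp d b θ).im = 0)
    (hs : ∀ n : ℤ,
      0 ≤ (tp d b (2 * Real.pi * n / N)).re * (tp d b (2 * Real.pi * (n + 1) / N)).re)
    (p : Polynomial ℝ) (hp : ∀ x, 0 ≤ x → 0 ≤ p.eval x) (hN : (2 * p.natDegree + 2) * d < N) :
    0 ≤ ∑ j ∈ range (p.natDegree + 1), p.coeff j / ((j : ℝ) + 1) ^ 2 *
      (∑ m ∈ Fintype.piFinset (fun _ : Fin (2 * j + 1 + 1) => Icc (-(d : ℤ)) d),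
        if ∑ i, m i = 0 then (∏ i, b (m i)) * ((∑ x ∈ range N,
          (|∏ i, wt N ((x : ℤ) + ∑ j ∈ Iio i, m j)|
            - ∏ i, wt N ((x : ℤ) + ∑ j ∈ Iio i, m j)) : ℝ) : ℂ) else 0).re := by
  set a : ZMod N → ℝ := fun j => (az d b j).re with ha0
  have ha : ∀ j, (a j : ℂ) = az d b j := by
    intro j
    refine Complex.ext (by simp [ha0]) ?_
    rw [Complex.ofReal_im, ← ZMod.intCast_zmod_cast j, az_cast, hre]
  have hs' : ∀ j, 0 ≤ a j * a (j + 1) := by
    intro j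
    have := hs (ZMod.cast j)
    rw [← az_cast, ← Int.cast_one (R := ℝ), ← Int.cast_add, ← az_cast, Int.cast_add,
      ZMod.intCast_zmod_cast, Int.cast_one] at this
    exact this
  have dh : ∀ f : ZMod N → ℝ, (diagonal (fun j => (f j : ℂ)))ᴴ = diagonal (fun j => (f j : ℂ)) := by
    intro f; rw [diagonal_conjTranspose]; congr 1; ext i; simp
  set σ : Matrix (ZMod N) (ZMod N) ℂ := diagonal (fun j => (sr (a j) : ℂ)) with hσ
  set H : Matrix (ZMod N) (ZMod N) ℂ := diagonal (fun x => (sr (wz x) : ℂ)) with hH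
  have hH2 : H * H = 1 := by
    rw [hH, diagonal_mul_diagonal, ← diagonal_one]; congr 1; ext x
    rw [← Complex.ofReal_mul, sr_sq]; simp
  have hGh : (Cm a * H * (Cm a)ᴴ).IsHermitian := isHermitian_mul_mul_conjTranspose _ (dh _)
  have hcomm : σ * (Cm a * H * (Cm a)ᴴ) = (Cm a * H * (Cm a)ᴴ) * σ := by
    ext j l
    obtain ⟨g, hg, hg0⟩ := G_apply a j l
    rw [hσ, diagonal_mul, mul_diagonal, hg]
    by_cases h1 : l = j + 1
    · have := sr_comm (a j) (a l) (h1 ▸ hs' j)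
      rw [← mul_assoc, ← Complex.ofReal_mul, this]; push_cast; ring
    · by_cases h2 : j = l + 1
      · have := sr_comm (a j) (a l) (by rw [mul_comm]; exact h2 ▸ hs' l)
        rw [← mul_assoc, ← Complex.ofReal_mul, this]; push_cast; ring
      · rw [hg0 h1 h2]; simp
  have hY : (σ * Cm a * H * (Cm a)ᴴ).IsHermitian := by
    have e : σ * Cm a * H * (Cm a)ᴴ = σ * (Cm a * H * (Cm a)ᴴ) := by
      simp only [Matrix.mul_assoc]
    rw [e, IsHermitian, conjTranspose_mul, hGh, dh, hcomm]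
  have key := mt (Cm a) σ H (dh _) (dh _) hH2 hY 0 (Or.inl rfl) p (by simpa using hp)
  refine key.trans_eq (sum_congr rfl fun j hj => ?_)
  congr 2
  have hj' : (2 * j + 1 + 1) * d < N :=
    lt_of_le_of_lt (Nat.mul_le_mul_right d (by rw [mem_range] at hj; omega)) hN
  set W : Matrix (ZMod N) (ZMod N) ℂ := diagonal (fun x => ((√|wz x| : ℝ) : ℂ)) with hW
  set T : Matrix (ZMod N) (ZMod N) ℂ := Matrix.of fun x y => be d b (y - x) with hT
  have hX : (Cm a)ᴴ * σ * Cm a = W * T * W := by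
    ext x y
    rw [hσ, X_apply d b a ha, hW, mul_diagonal, diagonal_mul, hT, of_apply]
  rw [hX, Matrix.mul_assoc (W * T) W H, trace_pow_comm (W * T) W, trace_pow_comm (W * T) (W * H),
    cyc_trace d b (fun x => ((|wz x| : ℝ) : ℂ)) _ ?_ _ hj',
    cyc_trace d b (fun x => ((wz x : ℝ) : ℂ)) _ ?_ _ hj', ← sum_sub_distrib]
  · refine sum_congr rfl fun m _ => ?_
    split_ifs with h
    · rw [← mul_sub, ← sum_sub_distrib, sum_zmod, Complex.ofReal_sum]
      congr 1
      refine sum_congr rfl fun x _ => ?_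
      simp only [← Int.cast_add, wz_cast]
      rw [abs_prod]; push_cast; rfl
    · simp
  · intro x y
    rw [← Matrix.mul_assoc, hW, hH, diagonal_mul_diagonal, diagonal_mul_diagonal, diagonal_mul, hT,
      of_apply, ← Complex.ofReal_mul, ← Complex.ofReal_mul, sr_mul]
  · intro x y
    rw [← Matrix.mul_assoc, hW, diagonal_mul_diagonal, diagonal_mul, hT, of_apply,
      ← Complex.ofReal_mul, Real.mul_self_sqrt (abs_nonneg _)]

end Pool.Agent.P.MP_2eaf66_an.Mo
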