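import Mathlib
import Pool.Agent.P.MP_2eaf66_an.Mo.Defs

set_option autoImplicit false

namespace Pool.Agent.P.MP_2eaf66_an.Mo

open scoped ComplexConjugate ComplexOrder
open Finset Filter Topology

noncomputable def dens_w (t : ℝ) : ℂ := Complex.exp ((t : ℂ) / 2 * Complex.I)

theorem dens_w_ne (t : ℝ) : dens_w t ≠ 0 := Complex.exp_ne_zero _

theorem dens_w_cont : Continuous dens_w := by
  unfold dens_w
  fun_prop

noncomputable def dens_F (e : ℕ) (p : Polynomial ℂ) (t : ℝ) : ℂ :=
  (dens_w t)⁻¹ ^ e * p.eval (dens_w t ^ 2)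

theorem dens_F_cont (e : ℕ) (p : Polynomial ℂ) : Continuous (dens_F e p) := by
  unfold dens_F
  exact ((dens_w_cont.inv₀ dens_w_ne).pow e).mul
    ((Polynomial.continuous p).comp (dens_w_cont.pow 2))

theorem dens_sin (t s : ℝ) : (dens_w t)⁻¹ * (dens_w t ^ 2 - dens_w s ^ 2) =
    (Real.sin ((t - s) / 2) : ℂ) * (2 * Complex.I * dens_w s) := by
  have h1 : Complex.exp ((((t - s) / 2 : ℝ) : ℂ) * Complex.I) = dens_w t * (dens_w s)⁻¹ := by
    unfold dens_w
    rw [← Complex.exp_neg, ← Complex.exp_add]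
    congr 1
    push_cast
    ring
  have h2 : Complex.exp (-(((t - s) / 2 : ℝ) : ℂ) * Complex.I) = dens_w s * (dens_w t)⁻¹ := by
    unfold dens_w
    rw [← Complex.exp_neg, ← Complex.exp_add]
    congr 1
    push_cast
    ring
  rw [Complex.ofReal_sin, Complex.sin, h1, h2]
  have ht := dens_w_ne t
  have hs := dens_w_ne s
  field_simp
  rw [Complex.I_sq]
  ring

theorem dens_step (e : ℕ) (q : Polynomial ℂ) (s t : ℝ) :
    dens_F (e + 1) ((Polynomial.X - Polynomial.C (dens_w s ^ 2)) * q) t =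
      (Real.sin ((t - s) / 2) : ℂ) * (2 * Complex.I * dens_w s) * dens_F e q t := by
  rw [← dens_sin]
  unfold dens_F
  simp only [Polynomial.eval_mul, Polynomial.eval_sub, Polynomial.eval_X, Polynomial.eval_C]
  ring

theorem dens_C (e : ℕ) (q : Polynomial ℂ) (c : ℂ) (t : ℝ) :
    dens_F e (Polynomial.C c * q) t = c * dens_F e q t := by
  unfold dens_F
  simp only [Polynomial.eval_mul, Polynomial.eval_C]
  ring

theorem dens_k_ne (s : ℝ) : 2 * Complex.I * dens_w s ≠ 0 :=
  mul_ne_zero (mul_ne_zero two_ne_zero Complex.I_ne_zero) (dens_w_ne s)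

theorem dens_real (g : ℝ → ℝ) (hg : Continuous g) (s : ℝ)
    (h : ∀ t, Real.sin ((t - s) / 2) * g t = 0) (t : ℝ) : g t = 0 := by
  have hc : (Set.range (fun n : ℤ => s + 2 * (n * Real.pi))).Countable := Set.countable_range _
  have hd := hc.dense_compl ℝ
  have : g = fun _ => 0 := by
    refine Continuous.ext_on hd hg continuous_const ?_
    intro x hx
    rcases mul_eq_zero.1 (h x) with h0 | h0
    · exfalso
      obtain ⟨n, hn⟩ := Real.sin_eq_zero_iff.1 h0
      exact hx ⟨n, by simp only []; linarith⟩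
    · exact h0
  rw [this]

theorem dens_approx (s : ℝ) :
    Tendsto (fun l : ℕ => 2 * Real.pi * (⌊s * ((l : ℝ) + 1) / (2 * Real.pi)⌋ : ℤ) / ((l : ℝ) + 1))
      atTop (𝓝 s) := by
  have hpi := Real.pi_pos
  have h0 : Tendsto (fun l : ℕ => s - 2 * Real.pi * (1 / ((l : ℝ) + 1))) atTop
      (𝓝 (s - 2 * Real.pi * 0)) :=
    tendsto_const_nhds.sub (tendsto_one_div_add_atTop_nhds_zero_nat.const_mul _)
  rw [mul_zero, sub_zero] at h0
  refine tendsto_of_tendsto_of_tendsto_of_le_of_le h0 tendsto_const_nhds ?_ ?_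
  · intro l
    have hl : (0 : ℝ) < (l : ℝ) + 1 := by positivity
    have h1 := Int.lt_floor_add_one (s * ((l : ℝ) + 1) / (2 * Real.pi))
    rw [div_lt_iff₀ (by positivity)] at h1
    simp only []
    rw [le_div_iff₀ hl]
    have : (s - 2 * Real.pi * (1 / ((l : ℝ) + 1))) * ((l : ℝ) + 1) =
        s * ((l : ℝ) + 1) - 2 * Real.pi := by
      field_simp
    rw [this]
    nlinarith
  · intro l
    have hl : (0 : ℝ) < (l : ℝ) + 1 := by positivity
    have h1 := Int.floor_le (s * ((l : ℝ) + 1) / (2 * Real.pi))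
    rw [le_div_iff₀ (by positivity)] at h1
    simp only []
    rw [div_le_iff₀ hl]
    nlinarith

theorem dens_ind (e : ℕ) : ∀ p : Polynomial ℂ, p.natDegree ≤ e →
    (∀ t, (dens_F e p t).im = 0) → p ≠ 0 →
    ∃ P : ℕ → Polynomial ℂ, (∀ l, (P l).natDegree ≤ e ∧ (∀ t, (dens_F e (P l) t).im = 0) ∧
      ∃ N0 : ℕ, 0 < N0 ∧ ∀ t, dens_F e (P l) t = 0 → ∃ q : ℤ, t = 2 * Real.pi * q / N0) ∧
      ∀ i, Tendsto (fun l => (P l).coeff i) atTop (𝓝 (p.coeff i)) := by
  induction e with
  | zero =>
    intro p hd hr hp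
    refine ⟨fun _ => p, fun _ => ⟨hd, hr, 1, one_pos, fun t ht => ?_⟩, fun _ => tendsto_const_nhds⟩
    exfalso
    apply hp
    rw [Polynomial.eq_C_of_natDegree_le_zero hd] at ht ⊢
    unfold dens_F at ht
    simp only [pow_zero, one_mul, Polynomial.eval_C] at ht
    rw [ht, map_zero]
  | succ e ih =>
    intro p hd hr hp
    by_cases hz : ∃ s, dens_F (e + 1) p s = 0
    swap
    · exact ⟨fun _ => p, fun _ => ⟨hd, hr, 1, one_pos, fun t ht => absurd ⟨t, ht⟩ hz⟩,
        fun _ => tendsto_const_nhds⟩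
    obtain ⟨s, hs⟩ := hz
    have hroot : p.IsRoot (dens_w s ^ 2) := by
      unfold dens_F at hs
      rcases mul_eq_zero.1 hs with h | h
      · exact absurd h (pow_ne_zero _ (inv_ne_zero (dens_w_ne s)))
      · exact h
    obtain ⟨q, hq⟩ := Polynomial.dvd_iff_isRoot.2 hroot
    have hq0 : q ≠ 0 := by
      rintro rfl
      exact hp (by rw [hq, mul_zero])
    have hqd : q.natDegree ≤ e := by
      rw [hq, Polynomial.natDegree_mul (Polynomial.X_sub_C_ne_zero _) hq0,
        Polynomial.natDegree_X_sub_C] at hd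
      omega
    set q' : Polynomial ℂ := Polynomial.C (2 * Complex.I * dens_w s) * q with hq'
    have hq'0 : q' ≠ 0 := mul_ne_zero (Polynomial.C_ne_zero.2 (dens_k_ne s)) hq0
    have hq'd : q'.natDegree ≤ e := (Polynomial.natDegree_C_mul_le _ _).trans hqd
    have hq'r : ∀ t, (dens_F e q' t).im = 0 := by
      refine dens_real (fun t => (dens_F e q' t).im)
        (Complex.continuous_im.comp (dens_F_cont e q')) s ?_
      intro t
      have h1 := hr t
      rw [hq, dens_step, mul_assoc, ← dens_C, Complex.im_ofReal_mul] at h1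
      exact h1
    obtain ⟨Q, hQ, hlim⟩ := ih q' hq'd hq'r hq'0
    set u : ℕ → ℝ := fun l =>
      2 * Real.pi * (⌊s * ((l : ℝ) + 1) / (2 * Real.pi)⌋ : ℤ) / ((l : ℝ) + 1) with hu
    have hul : Tendsto u atTop (𝓝 s) := dens_approx s
    refine ⟨fun l => Polynomial.C (2 * Complex.I * dens_w (u l))⁻¹ *
      ((Polynomial.X - Polynomial.C (dens_w (u l) ^ 2)) * Q l), fun l => ?_, fun i => ?_⟩
    · obtain ⟨hd1, hr1, N0, hN0, hz1⟩ := hQ l
      have hF : ∀ t, dens_F (e + 1) (Polynomial.C (2 * Complex.I * dens_w (u l))⁻¹ *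
          ((Polynomial.X - Polynomial.C (dens_w (u l) ^ 2)) * Q l)) t =
          (Real.sin ((t - u l) / 2) : ℂ) * dens_F e (Q l) t := by
        intro t
        rw [dens_C, dens_step]
        have := dens_k_ne (u l)
        calc _ = ((2 * Complex.I * dens_w (u l))⁻¹ * (2 * Complex.I * dens_w (u l))) *
              ((Real.sin ((t - u l) / 2) : ℂ) * dens_F e (Q l) t) := by ring
          _ = _ := by rw [inv_mul_cancel₀ this, one_mul]
      refine ⟨?_, fun t => ?_, N0 * (l + 1), by positivity, fun t ht => ?_⟩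
      · refine (Polynomial.natDegree_C_mul_le _ _).trans (Polynomial.natDegree_mul_le.trans ?_)
        rw [Polynomial.natDegree_X_sub_C]
        omega
      · rw [hF, Complex.im_ofReal_mul, hr1, mul_zero]
      · rw [hF] at ht
        have hl : (0 : ℝ) < (l : ℝ) + 1 := by positivity
        have hN : (0 : ℝ) < (N0 : ℝ) := by exact_mod_cast hN0
        rcases mul_eq_zero.1 ht with h | h
        · obtain ⟨n, hn⟩ := Real.sin_eq_zero_iff.1 (Complex.ofReal_eq_zero.1 h)
          refine ⟨(⌊s * ((l : ℝ) + 1) / (2 * Real.pi)⌋ + n * (l + 1)) * N0, ?_⟩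
          have : t = u l + 2 * (n * Real.pi) := by linarith
          rw [this]
          simp only [hu]
          push_cast
          field_simp
        · obtain ⟨m, hm⟩ := hz1 t h
          refine ⟨m * (l + 1), ?_⟩
          rw [hm]
          push_cast
          field_simp
    · have hp' : p = Polynomial.C (2 * Complex.I * dens_w s)⁻¹ *
          ((Polynomial.X - Polynomial.C (dens_w s ^ 2)) * q') := by
        rw [hq', hq]
        calc _ = (Polynomial.C (2 * Complex.I * dens_w s)⁻¹ *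
              Polynomial.C (2 * Complex.I * dens_w s)) *
              ((Polynomial.X - Polynomial.C (dens_w s ^ 2)) * q) := by
              rw [← map_mul, inv_mul_cancel₀ (dens_k_ne s), map_one, one_mul]
          _ = _ := by ring
      rw [hp']
      simp only [Polynomial.coeff_C_mul, sub_mul, Polynomial.coeff_sub]
      have hw : Tendsto (fun l => dens_w (u l)) atTop (𝓝 (dens_w s)) :=
        (dens_w_cont.tendsto s).comp hul
      refine Tendsto.mul ((hw.const_mul _).inv₀ (dens_k_ne s))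
        (Tendsto.sub ?_ ((hw.pow 2).mul (hlim i)))
      cases i with
      | zero => simp
      | succ i => simpa only [Polynomial.coeff_X_mul] using hlim i

theorem dens_link (d : ℕ) (P : Polynomial ℂ) (hP : P.natDegree ≤ 2 * d) (t : ℝ) :
    tp d (fun n => P.coeff (n + d).toNat) t = dens_F (2 * d) P t := by
  unfold tp dens_F
  rw [Polynomial.eval_eq_sum_range' (n := 2 * d + 1) (by omega), Finset.mul_sum]
  refine Finset.sum_nbij' (fun n : ℤ => (n + d).toNat) (fun i : ℕ => (i : ℤ) - d) ?_ ?_ ?_ ?_ ?_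
  · intro n hn
    simp only [mem_Icc, mem_range] at hn ⊢
    omega
  · intro i hi
    simp only [mem_Icc, mem_range] at hi ⊢
    omega
  · intro n hn
    simp only [mem_Icc] at hn ⊢
    omega
  · intro i _
    simp
  · intro n hn
    simp only [mem_Icc] at hn
    have h1 : (((n + d).toNat : ℕ) : ℂ) = (n : ℂ) + d := by
      have : (((n + d).toNat : ℕ) : ℤ) = n + d := by omega
      exact_mod_cast congrArg (Int.cast : ℤ → ℂ) this
    have h2 : Complex.exp (n * t * Complex.I) =
        (dens_w t)⁻¹ ^ (2 * d) * (dens_w t ^ 2) ^ (n + d).toNat := by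
      unfold dens_w
      rw [← Complex.exp_neg, ← Complex.exp_nat_mul, ← Complex.exp_nat_mul, ← Complex.exp_nat_mul,
        ← Complex.exp_add, h1]
      congr 1
      push_cast
      ring
    rw [h2]
    ring

theorem dens_tp_real (d : ℕ) (b : ℤ → ℂ) (hb : ∀ n, b (-n) = conj (b n)) (t : ℝ) :
    (tp d b t).im = 0 := by
  rw [← Complex.conj_eq_iff_im]
  unfold tp
  rw [map_sum]
  refine Finset.sum_nbij' (fun n : ℤ => -n) (fun n : ℤ => -n) ?_ ?_ ?_ ?_ ?_
  · intro n hn
    simp only [mem_Icc] at hn ⊢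
    omega
  · intro n hn
    simp only [mem_Icc] at hn ⊢
    omega
  · intro n _
    simp
  · intro n _
    simp
  · intro n _
    rw [map_mul, hb, ← Complex.exp_conj]
    congr 2
    simp

theorem dens_good (d : ℕ) (b : ℤ → ℂ) (hr : ∀ t, (tp d b t).im = 0) (N0 : ℕ) (hN0 : 0 < N0)
    (hz : ∀ t, tp d b t = 0 → ∃ q : ℤ, t = 2 * Real.pi * q / N0) : Good d b := by
  refine ⟨hr, N0, hN0, fun N hN hdiv n => ?_⟩
  by_contra hneg
  rw [not_le] at hneg
  have hpi := Real.pi_pos
  have hNr : (0 : ℝ) < N := by exact_mod_cast hN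
  have hc : Continuous (fun t : ℝ => (tp d b t).re) := by
    unfold tp
    fun_prop
  have hab : 2 * Real.pi * n / N ≤ 2 * Real.pi * (n + 1) / N := by
    gcongr
    linarith
  have hex : ∃ c ∈ Set.Ioo (2 * Real.pi * n / N) (2 * Real.pi * (n + 1) / N),
      (tp d b c).re = 0 := by
    rcases mul_neg_iff.1 hneg with h | h
    · exact intermediate_value_Ioo' hab hc.continuousOn ⟨h.2, h.1⟩
    · exact intermediate_value_Ioo hab hc.continuousOn ⟨h.1, h.2⟩
  obtain ⟨c, ⟨h1, h2⟩, hc0⟩ := hex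
  obtain ⟨q, hq⟩ := hz c (Complex.ext hc0 (hr c))
  obtain ⟨m, rfl⟩ := hdiv
  have hm : 0 < m := Nat.pos_of_mul_pos_left hN
  have hmr : (0 : ℝ) < m := by exact_mod_cast hm
  have hN0r : (0 : ℝ) < N0 := by exact_mod_cast hN0
  have hq2 : c = 2 * Real.pi * ((q * m : ℤ) : ℝ) / ((N0 * m : ℕ) : ℝ) := by
    rw [hq]
    push_cast
    field_simp
  rw [hq2, div_lt_div_iff_of_pos_right hNr, mul_lt_mul_iff_right₀ (by positivity)] at h1 h2
  have h3 : n < q * m := by exact_mod_cast h1
  have h4 : q * m < n + 1 := by exact_mod_cast h2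
  omega

theorem dens (d : ℕ) (b : ℤ → ℂ) (hb : ∀ n, b (-n) = conj (b n)) :
    ∃ B : ℕ → ℤ → ℂ, (∀ l, Good d (B l)) ∧
      ∀ n ∈ Icc (-(d : ℤ)) d, Tendsto (fun l => B l n) atTop (𝓝 (b n)) := by
  set p : Polynomial ℂ := ∑ i ∈ range (2 * d + 1), Polynomial.monomial i (b ((i : ℤ) - d)) with hp
  have hco : ∀ n ∈ Icc (-(d : ℤ)) d, p.coeff (n + d).toNat = b n := by
    intro n hn
    simp only [mem_Icc] at hn
    rw [hp, Polynomial.finsetSum_coeff]
    simp only [Polynomial.coeff_monomial]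
    rw [Finset.sum_ite_eq', if_pos (by simp only [mem_range]; omega)]
    congr 1
    omega
  have hdeg : p.natDegree ≤ 2 * d := by
    refine Polynomial.natDegree_sum_le_of_forall_le _ _ fun i hi => ?_
    simp only [mem_range] at hi
    exact (Polynomial.natDegree_monomial_le _).trans (by omega)
  have htp : ∀ t, tp d b t = dens_F (2 * d) p t := by
    intro t
    rw [← dens_link d p hdeg]
    unfold tp
    exact Finset.sum_congr rfl fun n hn => by simp only [hco n hn]
  by_cases h0 : p = 0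
  · refine ⟨fun _ => b, fun _ => ⟨dens_tp_real d b hb, 1, one_pos, fun N _ _ n => ?_⟩,
      fun _ _ => tendsto_const_nhds⟩
    rw [htp, h0]
    simp [dens_F]
  · obtain ⟨P, hP, hlim⟩ := dens_ind (2 * d) p hdeg
      (fun t => by rw [← htp]; exact dens_tp_real d b hb t) h0
    refine ⟨fun l n => (P l).coeff (n + d).toNat, fun l => ?_, fun n hn => ?_⟩
    · obtain ⟨h1, h2, N0, hN0, h3⟩ := hP l
      refine dens_good d _ (fun t => ?_) N0 hN0 (fun t ht => ?_)
      · rw [dens_link d _ h1]
        exact h2 t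
      · rw [dens_link d _ h1] at ht
        exact h3 t ht
    · rw [← hco n hn]
      exact hlim _

end Pool.Agent.P.MP_2eaf66_an.Mo
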