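import Mathlib
import Pool.Agent.P.MP_2eaf66_an.Mo.Defs

set_option autoImplicit false

namespace Pool.Agent.P.MP_2eaf66_an.Mo

open scoped ComplexConjugate ComplexOrder
open Finset Filter Topology

section
open MeasureTheory Polynomial
open scoped CompactlySupported

lemma hav_ext (c : ℝ) (L : ℝ[X] →ₗ[ℝ] ℝ)
    (h : ∀ p : ℝ[X], (∀ x, c ≤ x → 0 ≤ p.eval x) → 0 ≤ L p) :
    ∃ ν : Measure ℝ, IsFiniteMeasureOnCompacts ν ∧ ∀ (p : ℝ[X]) (f : ℝ → ℝ), Continuous f →
      HasCompactSupport f → (∀ x, c ≤ x → f x ≤ p.eval x) → ∫ x, f x ∂ν ≤ L p := by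
  let S : PointedCone ℝ (ℝ[X] × C_c(ℝ, ℝ)) :=
    { carrier := {y | ∀ x, c ≤ x → 0 ≤ y.1.eval x + y.2 x}
      add_mem' := fun {a b} ha hb x hx => by
        have := add_nonneg (ha x hx) (hb x hx)
        simp only [Prod.fst_add, Prod.snd_add, eval_add,
          CompactlySupportedContinuousMap.add_apply]
        linarith
      zero_mem' := fun x _ => by simp
      smul_mem' := fun t a ha x hx => by
        have := mul_nonneg t.2 (ha x hx)
        change 0 ≤ ((t : ℝ) • a.1).eval x + ((t : ℝ) • a.2) x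
        simp only [eval_smul, smul_eq_mul, CompactlySupportedContinuousMap.smul_apply]
        linarith }
  have mem : ∀ y : ℝ[X] × C_c(ℝ, ℝ), y ∈ S ↔ ∀ x, c ≤ x → 0 ≤ y.1.eval x + y.2 x :=
    fun _ => Iff.rfl
  obtain ⟨g, g1, g2⟩ := riesz_extension S
    (LinearMap.toPMap (L ∘ₗ LinearMap.fst ℝ ℝ[X] C_c(ℝ, ℝ))
      (LinearMap.ker (LinearMap.snd ℝ ℝ[X] C_c(ℝ, ℝ))))
    (fun y hy => h y.1.1 fun x hx => by
      have e : y.1.2 = 0 := y.2
      simpa [e] using (mem _).1 hy x hx)
    (fun y => by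
      obtain ⟨M, hM⟩ := y.2.continuous.bounded_above_of_compact_support y.2.hasCompactSupport
      refine ⟨⟨(C M - y.1, 0), rfl⟩, (mem _).2 fun x _ => ?_⟩
      have := (abs_le.1 (hM x)).1
      simp only [Prod.fst_add, Prod.snd_add, sub_add_cancel, zero_add, eval_C]
      exact neg_le_iff_add_nonneg'.1 this)
  let Λ : C_c(ℝ, ℝ) →ₚ[ℝ] ℝ := PositiveLinearMap.mk₀ (g ∘ₗ LinearMap.inr ℝ _ _) fun f hf =>
    g2 _ ((mem _).2 fun x _ => by simpa using hf x)
  refine ⟨RealRMK.rieszMeasure Λ, inferInstance, fun p f f1 f2 hf => ?_⟩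
  let F : C_c(ℝ, ℝ) := ⟨⟨f, f1⟩, f2⟩
  have e1 : ∫ x, f x ∂(RealRMK.rieszMeasure Λ) = g (0, F) := RealRMK.integral_rieszMeasure Λ F
  have e2 : g (p, 0) = L p := g1 ⟨(p, 0), rfl⟩
  have k := g2 ((p, 0) - (0, F)) ((mem _).2 fun x hx => by
    have : F x = f x := rfl
    simpa [this] using hf x hx)
  rw [map_sub, e2, ← e1] at k
  linarith

/-- A cut-off function. -/
noncomputable def hav_chi (n : ℕ) (x : ℝ) : ℝ := max 0 (min 1 (n + 1 - |x|))

lemma hav_cont (n : ℕ) : Continuous (hav_chi n) := by unfold hav_chi; fun_prop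

lemma hav_supp (n : ℕ) : HasCompactSupport (hav_chi n) :=
  HasCompactSupport.intro (isCompact_Icc (a := -(n + 1 : ℝ)) (b := n + 1)) fun x hx => by
    rw [Set.mem_Icc, ← abs_le, not_le] at hx
    exact max_eq_left ((min_le_right _ _).trans (by linarith))

lemma hav_nonneg (n : ℕ) (x : ℝ) : 0 ≤ hav_chi n x := le_max_left _ _

lemma hav_le (n : ℕ) (x : ℝ) : hav_chi n x ≤ 1 := max_le zero_le_one (min_le_left _ _)

lemma hav_one {n : ℕ} {x : ℝ} (h : |x| ≤ n) : hav_chi n x = 1 := by
  rw [hav_chi, min_eq_left (by linarith), max_eq_right zero_le_one]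

lemma hav_tail (n j : ℕ) (x : ℝ) :
    |n * (x ^ j * hav_chi n x) - n * x ^ j| ≤ x ^ (2 * (j + 1)) + 1 := by
  rcases le_or_gt |x| n with h | h
  · rw [hav_one h, mul_one, sub_self, abs_zero, pow_mul']
    positivity
  · have e : n * (x ^ j * hav_chi n x) - n * x ^ j = -(n * x ^ j * (1 - hav_chi n x)) := by ring
    have a := hav_nonneg n x
    have b := hav_le n x
    have k : 0 ≤ |x| ^ j := by positivity
    rw [e, abs_neg, abs_mul, abs_mul, abs_pow, Nat.abs_cast, abs_of_nonneg (sub_nonneg.2 b),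
      pow_mul', ← sq_abs, abs_pow]
    calc n * |x| ^ j * (1 - hav_chi n x) ≤ n * |x| ^ j :=
          mul_le_of_le_one_right (by positivity) (by linarith)
      _ ≤ |x| ^ (j + 1) := by rw [pow_succ']; exact mul_le_mul_of_nonneg_right h.le k
      _ ≤ _ := by nlinarith [sq_nonneg (|x| ^ (j + 1) - 1)]

end

theorem haviland (c : ℝ) (s : ℕ → ℝ)
    (h : ∀ p : Polynomial ℝ, (∀ x, c ≤ x → 0 ≤ p.eval x) →
      0 ≤ ∑ j ∈ range (p.natDegree + 1), p.coeff j * s j) :
    ∃ ν : MeasureTheory.Measure ℝ, ν (Set.Iio c) = 0 ∧ ∀ j : ℕ,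
      MeasureTheory.Integrable (fun x : ℝ => x ^ j) ν ∧ ∫ x, x ^ j ∂ν = s j := by
  let L : Polynomial ℝ →ₗ[ℝ] ℝ := Polynomial.lsum fun j => LinearMap.mulRight ℝ (s j)
  have LX : ∀ j, L (Polynomial.X ^ j) = s j := fun j => by
    simp [L, Polynomial.lsum_apply, Polynomial.X_pow_eq_monomial]
  obtain ⟨ν, _, key⟩ := hav_ext c L fun p hp => by
    rw [Polynomial.lsum_apply, Polynomial.sum_over_range _ (by simp)]
    exact h p hp
  have int : ∀ (f : ℝ → ℝ) (n : ℕ), Continuous f →
      MeasureTheory.Integrable (fun x => f x * hav_chi n x) ν := fun f n hf =>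
    (hf.mul (hav_cont n)).integrable_of_hasCompactSupport (hav_supp n).mul_left
  refine ⟨ν, ?_, fun j => ?_⟩
  · have z : ∀ n : ℕ, ∀ᵐ x ∂ν, max 0 (c - x) * hav_chi n x = 0 := fun n => by
      have p : ∀ x, 0 ≤ max 0 (c - x) * hav_chi n x := fun x =>
        mul_nonneg (le_max_left _ _) (hav_nonneg n x)
      refine (MeasureTheory.integral_eq_zero_iff_of_nonneg p (int _ n (by fun_prop))).1
        (le_antisymm ?_ (MeasureTheory.integral_nonneg p))
      refine (key 0 _ (Continuous.mul (by fun_prop) (hav_cont n)) (hav_supp n).mul_left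
        fun x hx => ?_).trans_eq (map_zero L)
      simp [max_eq_left (sub_nonpos.2 hx)]
    refine MeasureTheory.measure_eq_zero_iff_ae_notMem.2 ?_
    filter_upwards [MeasureTheory.ae_all_iff.2 z] with x hx hc
    have k := hx ⌈|x|⌉₊
    rw [hav_one (Nat.le_ceil _), mul_one, max_eq_right (sub_nonneg.2 hc.le)] at k
    exact (sub_pos.2 hc).ne' k
  · have pos : ∀ x : ℝ, 0 ≤ x ^ (2 * j) + 1 := fun x => by rw [pow_mul']; positivity
    have i2 : MeasureTheory.Integrable (fun x : ℝ => x ^ (2 * j) + 1) ν := by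
      refine (MeasureTheory.aecover_Icc (μ := ν) (l := atTop) (a := fun n : ℕ => -(n : ℝ))
        (b := fun n : ℕ => (n : ℝ)) (tendsto_neg_atTop_atBot.comp tendsto_natCast_atTop_atTop)
        tendsto_natCast_atTop_atTop).integrable_of_integral_bounded_of_nonneg_ae
        (L (Polynomial.X ^ (2 * j) + 1))
        (fun n => Continuous.integrableOn_Icc (by fun_prop)) (.of_forall pos)
        (.of_forall fun n => ?_)
      refine le_trans ?_ (key _ (fun x => (x ^ (2 * j) + 1) * hav_chi n x)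
        (Continuous.mul (by fun_prop) (hav_cont n)) (hav_supp n).mul_left fun x _ => by
          simpa using mul_le_of_le_one_right (pos x) (hav_le n x))
      refine le_trans (le_of_eq ?_) (MeasureTheory.setIntegral_le_integral
        (s := Set.Icc (-(n : ℝ)) n) (int _ n (by fun_prop))
        (.of_forall fun x => mul_nonneg (pos x) (hav_nonneg n x)))
      refine MeasureTheory.setIntegral_congr_fun measurableSet_Icc fun x hx => ?_
      simp only [hav_one (abs_le.2 hx), mul_one]
    have i1 : MeasureTheory.Integrable (fun x : ℝ => x ^ j) ν :=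
      i2.mono' (by fun_prop) (.of_forall fun x => by
        rw [Real.norm_eq_abs, pow_mul', ← sq_abs]
        nlinarith [sq_nonneg (|x ^ j| - 1)])
    refine ⟨i1, tendsto_nhds_unique (f := fun n : ℕ => ∫ x, x ^ j * hav_chi n x ∂ν)
      (l := atTop) ?_ ?_⟩
    · refine MeasureTheory.tendsto_integral_of_dominated_convergence _
        (fun n => (int _ n (by fun_prop)).1) i1.norm (fun n => .of_forall fun x => ?_)
        (.of_forall fun x => tendsto_const_nhds.congr' ?_)
      · rw [norm_mul, Real.norm_of_nonneg (hav_nonneg n x)]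
        exact mul_le_of_le_one_right (norm_nonneg _) (hav_le n x)
      · filter_upwards [eventually_ge_atTop ⌈|x|⌉₊] with n hn
        rw [hav_one (Nat.ceil_le.1 hn), mul_one]
    · rw [← tendsto_sub_nhds_zero_iff]
      refine squeeze_zero_norm' ?_
        (tendsto_const_div_atTop_nhds_zero_nat (L (Polynomial.X ^ (2 * (j + 1)) + 1)))
      filter_upwards [eventually_gt_atTop 0] with n hn
      have n0 : (0 : ℝ) < n := by exact_mod_cast hn
      have k : ∀ ε : ℝ, (∀ a b : ℝ, |a| ≤ b → ε * a ≤ b) →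
          ε * (n * ((∫ x, x ^ j * hav_chi n x ∂ν) - s j)) ≤
            L (Polynomial.X ^ (2 * (j + 1)) + 1) := fun ε hε => by
        have k := key (Polynomial.X ^ (2 * (j + 1)) + 1 + (ε * n) • Polynomial.X ^ j)
          (fun x => (ε * n * x ^ j) * hav_chi n x) (Continuous.mul (by fun_prop) (hav_cont n))
          (hav_supp n).mul_left fun x _ => by
            have := hε _ _ (hav_tail n j x)
            simp only [Polynomial.eval_add, Polynomial.eval_pow, Polynomial.eval_X,
              Polynomial.eval_one, Polynomial.eval_smul, smul_eq_mul]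
            linarith
        simp only [mul_assoc _ (_ ^ j)] at k
        rw [MeasureTheory.integral_const_mul, map_add, map_smul, LX, smul_eq_mul] at k
        linarith
      rw [Real.norm_eq_abs, le_div_iff₀ n0, mul_comm, ← abs_of_pos n0, ← abs_mul, abs_le]
      have k1 := k 1 fun a b hab => by linarith [le_abs_self a]
      have k2 := k (-1) fun a b hab => by linarith [neg_abs_le a]
      constructor <;> linarith

end Pool.Agent.P.MP_2eaf66_an.Mo
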