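import Mathlib
import Pool.Agent.P.MP_2eaf66_an.Mo.Defs

set_option autoImplicit false

namespace Pool.Agent.P.MP_2eaf66_an.Mo

open scoped ComplexConjugate ComplexOrder
open Finset Filter Topology

lemma lim_sin (x : ℝ) : Real.sin x = x * Real.sinc x := by
  by_cases h : x = 0
  · simp [h]
  · rw [Real.sinc_of_ne_zero h, mul_div_cancel₀ _ h]

lemma lim_wt (n : ℤ) : Tendsto (fun M : ℕ => wt (2 * M) n) atTop (𝓝 n) := by
  have h0 : Tendsto (fun M : ℕ => 2 * Real.pi / ((2 * M : ℕ) : ℝ)) atTop (𝓝 0) :=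
    (tendsto_const_div_atTop_nhds_zero_nat _).comp
      (tendsto_atTop_mono (fun M : ℕ => show M ≤ 2 * M by omega) tendsto_id)
  have c : ContinuousAt (fun h : ℝ => n * Real.sinc (n * h) / Real.sinc h) 0 :=
    (continuous_const.mul (Real.continuous_sinc.comp (continuous_const.mul
      continuous_id))).continuousAt.div Real.continuous_sinc.continuousAt (by simp)
  have := c.tendsto.comp h0
  simp only [mul_zero, Real.sinc_zero, mul_one, div_one] at this
  refine this.congr' ?_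
  filter_upwards [eventually_gt_atTop 0] with M hM
  have k : 2 * Real.pi / ((2 * M : ℕ) : ℝ) ≠ 0 := by positivity
  simp only [Function.comp, wt]
  rw [show 2 * Real.pi * n / ((2 * M : ℕ) : ℝ) = n * (2 * Real.pi / ((2 * M : ℕ) : ℝ)) by ring]
  generalize 2 * Real.pi / ((2 * M : ℕ) : ℝ) = h at k
  rw [lim_sin h, lim_sin (n * h), mul_comm (n : ℝ) h, mul_assoc, mul_div_mul_left _ _ k]

lemma lim_shift {M : ℕ} (hM : 0 < M) (n : ℤ) : wt (2 * M) (M + n) = -wt (2 * M) n := by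
  unfold wt
  rw [← neg_div, ← Real.sin_add_pi]
  congr 2
  push_cast
  field_simp
  ring

lemma lim_nonneg {M : ℕ} (hM : 0 < M) {n : ℤ} (h0 : 0 ≤ n) (h1 : n ≤ M) : 0 ≤ wt (2 * M) n := by
  have k : ∀ x : ℝ, 0 ≤ x → x ≤ M → 0 ≤ Real.sin (2 * Real.pi * x / ((2 * M : ℕ) : ℝ)) := by
    intro x a b
    refine Real.sin_nonneg_of_nonneg_of_le_pi (by positivity) ?_
    rw [div_le_iff₀ (by positivity)]
    push_cast
    nlinarith [Real.pi_pos]
  refine div_nonneg (k n (by exact_mod_cast h0) (by exact_mod_cast h1)) ?_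
  simpa only [mul_one] using k 1 zero_le_one (by exact_mod_cast hM)

/-- The summand on the grid. -/
noncomputable def lim_G {L : ℕ} (m : Fin L → ℤ) (M : ℕ) (n : ℤ) : ℝ :=
  |∏ i, wt (2 * M) (n + ∑ j ∈ Iio i, m j)| - ∏ i, wt (2 * M) (n + ∑ j ∈ Iio i, m j)

lemma lim_per {L : ℕ} (hL : Even L) (m : Fin L → ℤ) {M : ℕ} (hM : 0 < M) (n : ℤ) :
    lim_G m M (M + n) = lim_G m M n := by
  simp only [lim_G, add_assoc, lim_shift hM]
  rw [prod_neg, card_univ, Fintype.card_fin, hL.neg_one_pow, one_mul]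

lemma lim_zero {L : ℕ} (m : Fin L → ℤ) {M : ℕ} (hM : 0 < M) {n : ℤ} (h0 : ∑ j, |m j| ≤ n)
    (h1 : n + ∑ j, |m j| ≤ M) : lim_G m M n = 0 := by
  rw [lim_G, sub_eq_zero, abs_eq_self]
  refine prod_nonneg fun i _ => ?_
  have := abs_le.1 (abs_psum_le m i)
  exact lim_nonneg hM (by linarith [this.1]) (by linarith [this.2])

lemma lim_G_lim {L : ℕ} (m : Fin L → ℤ) (n : ℤ) :
    Tendsto (fun M => lim_G m M n) atTop (𝓝 ((|fpoly m n| - fpoly m n : ℤ) : ℝ)) := by
  have k : Tendsto (fun M : ℕ => ∏ i, wt (2 * M) (n + ∑ j ∈ Iio i, m j)) atTop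
      (𝓝 ((fpoly m n : ℤ) : ℝ)) := by
    rw [fpoly, Int.cast_prod]
    exact tendsto_finsetProd _ fun i _ => lim_wt _
  rw [Int.cast_sub, Int.cast_abs]
  exact k.abs.sub k

theorem lim_N {L : ℕ} (hL : Even L) (m : Fin L → ℤ) :
    Tendsto (fun M : ℕ => ∑ x ∈ range (2 * M),
      (|∏ i, wt (2 * M) ((x : ℤ) + ∑ j ∈ Iio i, m j)|
        - ∏ i, wt (2 * M) ((x : ℤ) + ∑ j ∈ Iio i, m j))) atTop (𝓝 (2 * (Ncoef m : ℝ))) := by
  obtain ⟨K, hK⟩ := Int.eq_ofNat_of_zero_le (sum_nonneg fun j (_ : j ∈ univ) => abs_nonneg (m j))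
  have e : Ncoef m = ∑ x ∈ range K, (|fpoly m x| - fpoly m x)
      + ∑ x ∈ range K, (|fpoly m (x - K)| - fpoly m (x - K)) := by
    rw [Ncoef, finsum_eq_sum_of_support_subset (s := (range (K + K)).image fun x : ℕ => (x : ℤ) - K),
      sum_image fun x _ y _ h => by simpa using h, sum_range_add, add_comm]
    · simp
    · intro n hn
      have : ¬ (K : ℤ) ≤ |n| := fun h => hn (fpoly_supp hL m n (hK ▸ h))
      have := abs_lt.1 (not_le.1 this)
      simp only [coe_image, coe_range, Set.mem_image, Set.mem_Iio]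
      exact ⟨(n + K).toNat, by omega, by omega⟩
  rw [e, Int.cast_add, Int.cast_sum, Int.cast_sum]
  refine (((tendsto_finsetSum _ fun (x : ℕ) _ => lim_G_lim m x).add
    (tendsto_finsetSum _ fun (x : ℕ) _ => lim_G_lim m (x - K))).const_mul 2).congr' ?_
  filter_upwards [eventually_ge_atTop (K + K), eventually_gt_atTop 0] with M h1 hM
  change _ = ∑ x ∈ range (2 * M), lim_G m M x
  have a : ∑ x ∈ range M, lim_G m M x
      = ∑ x ∈ range K, lim_G m M x + ∑ x ∈ range K, lim_G m M (x - K) := by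
    obtain ⟨D, hD⟩ : ∃ D, M = K + D + K := ⟨M - (K + K), by omega⟩
    rw [show range M = range (K + D + K) by rw [← hD], sum_range_add, sum_range_add,
      sum_eq_zero (s := range D) fun x hx => lim_zero m hM (by rw [hK]; omega)
        (by have := mem_range.1 hx; rw [hK]; omega), add_zero]
    congr 1
    refine sum_congr rfl fun x _ => ?_
    rw [← lim_per hL m hM (x - K)]
    congr 1
    omega
  rw [← a, two_mul M, sum_range_add, two_mul]
  congr 1
  exact sum_congr rfl fun x _ => by rw [Nat.cast_add, lim_per hL m hM]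

end Pool.Agent.P.MP_2eaf66_an.Mo
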