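import Mathlib
import Pool.Agent.P.MP_2eaf66_an.Mo.Defs

set_option autoImplicit false

namespace Pool.Agent.P.MP_2eaf66_an.Mo

open scoped ComplexConjugate ComplexOrder
open Finset Filter Topology

theorem toep_psd (f : ℝ → ℝ) (hf : Continuous f) (h : ∀ θ, 0 ≤ f θ) (S : Finset ℤ) :
    (Xm (coeff f) S).PosSemidef := by
  refine Matrix.PosSemidef.of_dotProduct_mulVec_nonneg (Xm_herm _ (coeff_neg f) S) fun v => ?_
  set e : S → ℝ → ℂ := fun y t =>
    ((√|((y : ℤ) : ℝ)| : ℝ) : ℂ) * v y * Complex.exp (-(((y : ℤ) : ℂ) * t * Complex.I)) with he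
  have hec : ∀ y, Continuous (e y) := fun y => by simp only [he]; fun_prop
  have hc : ∀ x y : S, Continuous (fun t : ℝ => (f t : ℂ) * (conj (e x t) * e y t)) := fun x y =>
    (Complex.continuous_ofReal.comp hf).mul
      ((Complex.continuous_conj.comp (hec x)).mul (hec y))
  have key : ∀ x y : S, conj (v x) * (Xm (coeff f) S x y * v y) = (1 / (2 * Real.pi) : ℂ) *
      ∫ t in (0 : ℝ)..(2 * Real.pi), (f t : ℂ) * (conj (e x t) * e y t) := by
    intro x y
    have e1 : ∀ t : ℝ, (f t : ℂ) * (conj (e x t) * e y t)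
        = (conj (v x) * ((√|((x : ℤ) : ℝ)| : ℝ) : ℂ) * ((√|((y : ℤ) : ℝ)| : ℝ) : ℂ) * v y) *
          ((f t : ℂ) * Complex.exp (-((((y : ℤ) - (x : ℤ) : ℤ) : ℂ) * t * Complex.I))) := by
      intro t
      have e2 : Complex.exp (-((((y : ℤ) - (x : ℤ) : ℤ) : ℂ) * t * Complex.I))
          = conj (Complex.exp (-(((x : ℤ) : ℂ) * t * Complex.I)))
            * Complex.exp (-(((y : ℤ) : ℂ) * t * Complex.I)) := by
        rw [← Complex.exp_conj, ← Complex.exp_add]
        congr 1
        simp only [map_neg, map_mul, map_intCast, Complex.conj_ofReal, Complex.conj_I]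
        push_cast; ring
      rw [e2]
      simp only [he, map_mul, Complex.conj_ofReal]
      ring
    simp only [e1, intervalIntegral.integral_const_mul, Xm, coeff]
    ring
  have e3 : star v ⬝ᵥ (Xm (coeff f) S).mulVec v = (1 / (2 * Real.pi) : ℂ) *
      ∫ t in (0 : ℝ)..(2 * Real.pi), ((f t * ‖∑ y, e y t‖ ^ 2 : ℝ) : ℂ) := by
    have e4 : ∀ t : ℝ, ((f t * ‖∑ y, e y t‖ ^ 2 : ℝ) : ℂ)
        = ∑ x, ∑ y, (f t : ℂ) * (conj (e x t) * e y t) := by
      intro t
      rw [Complex.ofReal_mul, ← Complex.normSq_eq_norm_sq, Complex.normSq_eq_conj_mul_self,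
        map_sum, sum_mul_sum, mul_sum]
      exact sum_congr rfl fun x _ => mul_sum _ _ _
    simp only [e4]
    rw [intervalIntegral.integral_finsetSum
      (fun x _ => (continuous_finsetSum _ fun y _ => hc x y).intervalIntegrable _ _), mul_sum,
      dotProduct]
    refine sum_congr rfl fun x _ => ?_
    rw [intervalIntegral.integral_finsetSum (fun y _ => (hc x y).intervalIntegrable _ _), mul_sum,
      Matrix.mulVec, dotProduct, mul_sum]
    exact sum_congr rfl fun y _ => key x y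
  rw [e3, intervalIntegral.integral_ofReal]
  have e5 : (1 / (2 * Real.pi) : ℂ) = ((1 / (2 * Real.pi) : ℝ) : ℂ) := by push_cast; rfl
  rw [e5, ← Complex.ofReal_mul, Complex.zero_le_real]
  refine mul_nonneg (by positivity) (intervalIntegral.integral_nonneg (by positivity) ?_)
  exact fun t _ => mul_nonneg (h t) (by positivity)

theorem toep_int (n : ℤ) :
    ∫ t in (0 : ℝ)..(2 * Real.pi), Complex.exp (-((n : ℂ) * t * Complex.I))
      = if n = 0 then (2 * Real.pi : ℂ) else 0 := by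
  split_ifs with hn
  · subst hn; simp
  · have hc : (-((n : ℂ) * Complex.I)) ≠ 0 :=
      neg_ne_zero.2 (mul_ne_zero (by exact_mod_cast hn) Complex.I_ne_zero)
    have e : ∀ t : ℝ, -((n : ℂ) * t * Complex.I) = (-((n : ℂ) * Complex.I)) * t := fun t => by ring
    simp only [e]
    rw [integral_exp_mul_complex hc]
    have e1 : Complex.exp (-((n : ℂ) * Complex.I) * ((2 * Real.pi : ℝ) : ℂ)) = 1 := by
      have := Complex.exp_int_mul_two_pi_mul_I (-n)
      rw [← this]; congr 1; push_cast; ring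
    rw [e1]; simp

theorem toep_sub (a : ℝ → ℝ) (ha : Continuous a) (δ : ℝ) (n : ℤ) :
    coeff (fun t => a t - δ) n = coeff a n - if n = 0 then (δ : ℂ) else 0 := by
  unfold coeff
  have e : ∀ t : ℝ, ((a t - δ : ℝ) : ℂ) * Complex.exp (-((n : ℂ) * t * Complex.I))
      = (a t : ℂ) * Complex.exp (-((n : ℂ) * t * Complex.I))
        - (δ : ℂ) * Complex.exp (-((n : ℂ) * t * Complex.I)) := fun t => by push_cast; ring
  simp only [e]
  rw [intervalIntegral.integral_sub (Continuous.intervalIntegrable (by fun_prop) _ _)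
    (Continuous.intervalIntegrable (by fun_prop) _ _), intervalIntegral.integral_const_mul,
    toep_int]
  have hpi : (Real.pi : ℂ) ≠ 0 := by exact_mod_cast Real.pi_ne_zero
  have hq : (1 / (2 * Real.pi) : ℂ) * (2 * Real.pi) = 1 := by field_simp
  split_ifs
  · linear_combination (-(δ : ℂ)) * hq
  · ring

theorem Xm_ge (a : ℝ → ℝ) (ha : Continuous a) (δ : ℝ) (hδ : 0 ≤ δ) (h : ∀ θ, δ ≤ a θ)
    (S : Finset ℤ) (h0 : (0 : ℤ) ∉ S) :
    (Xm (coeff a) S - (δ : ℂ) • (1 : Matrix S S ℂ)).PosSemidef := by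
  have h1 := toep_psd (fun t => a t - δ) (ha.sub continuous_const)
    (fun t => sub_nonneg.2 (h t)) S
  have h2 : (Matrix.diagonal
      (fun x : S => ((δ * (((|(x : ℤ)| : ℤ) : ℝ) - 1) : ℝ) : ℂ))).PosSemidef := by
    refine Matrix.PosSemidef.diagonal fun x => ?_
    simp only [Pi.zero_apply, Complex.zero_le_real]
    refine mul_nonneg hδ (sub_nonneg.2 ?_)
    have hx : (x : ℤ) ≠ 0 := fun hx => h0 (hx ▸ x.2)
    exact_mod_cast Int.one_le_abs hx
  convert h1.add h2 using 1
  ext x y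
  simp only [Matrix.sub_apply, Matrix.add_apply, Matrix.smul_apply, Xm, toep_sub a ha,
    Matrix.diagonal_apply, Matrix.one_apply, smul_eq_mul]
  by_cases hxy : x = y
  · subst hxy
    have := sqrt_mul_sqrt_abs (x : ℤ)
    simp only [sub_self, if_true]
    rw [Complex.ofReal_mul, Complex.ofReal_sub, Complex.ofReal_intCast, Complex.ofReal_one]
    linear_combination (δ : ℂ) * this
  · have : (y : ℤ) - (x : ℤ) ≠ 0 := fun h' => hxy (Subtype.ext (sub_eq_zero.1 h').symm)
    rw [if_neg hxy, if_neg hxy, if_neg this]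
    ring

theorem tendsto_trunc0 {r : ℕ} (b : ℤ → ℂ) (Z : ℂ) (hZ : HasSum (pathW (r := r) b) Z) :
    Tendsto (fun R : ℕ => ∑ p : Fin (r + 1) → ((Icc (-(R : ℤ)) R).erase 0),
      pathW b (fun i => (p i : ℤ))) atTop (𝓝 Z) := by
  refine (tendsto_trunc _ Z hZ).congr fun R => ?_
  symm
  let φ : (Fin (r + 1) → ((Icc (-(R : ℤ)) R).erase 0)) → (Fin (r + 1) → (Icc (-(R : ℤ)) R)) :=
    fun p i => ⟨p i, mem_of_mem_erase (p i).2⟩
  have hφ : Function.Injective φ := by
    intro p q hpq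
    ext i
    exact congrArg (fun z : (Icc (-(R : ℤ)) R) => (z : ℤ)) (congrFun hpq i)
  refine sum_of_injOn φ hφ.injOn (fun _ _ => mem_univ _) ?_ (fun _ _ => rfl)
  intro q _ hq
  have : ∃ i, (q i : ℤ) = 0 := by
    by_contra hne
    push Not at hne
    exact hq ⟨fun i => ⟨q i, mem_erase.2 ⟨hne i, (q i).2⟩⟩, by simp, rfl⟩
  obtain ⟨i, hi⟩ := this
  have h3 : ∏ j, (q j : ℤ) = 0 := prod_eq_zero (mem_univ i) hi
  simp only [pathW, h3]
  simp

end Pool.Agent.P.MP_2eaf66_an.Mo
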