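import Mathlib
import Pool.Agent.P.MP_2eaf66_an.Mo.Cyc
import Pool.Agent.P.MP_2eaf66_an.Mo.Hav
import Pool.Agent.P.MP_2eaf66_an.Mo.Dens
import Pool.Agent.P.MP_2eaf66_an.Mo.Toep
import Pool.Agent.P.MP_2eaf66_an.Mo.Lim

set_option autoImplicit false

namespace Pool.Agent.P.MP_2eaf66_an.Mo

open scoped ComplexConjugate ComplexOrder MatrixOrder
open Finset Filter Topology

/-- The partial sum of the series over a box. -/
noncomputable def Zd (d L : ℕ) (b : ℤ → ℂ) : ℂ :=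
  ∑ m ∈ Fintype.piFinset (fun _ : Fin L => Icc (-(d : ℤ)) d),
    if ∑ i, m i = 0 then (Ncoef m : ℂ) * ∏ i, b (m i) else 0

theorem good_ineq (d : ℕ) (b : ℤ → ℂ) (h : Good d b) (p : Polynomial ℝ)
    (hp : ∀ x, 0 ≤ x → 0 ≤ p.eval x) :
    0 ≤ ∑ j ∈ range (p.natDegree + 1),
      p.coeff j / ((j : ℝ) + 1) ^ 2 * (Zd d (2 * j + 1 + 1) b).re := by
  obtain ⟨hre, N0, hN0, hs⟩ := h
  have hM : Tendsto (fun l : ℕ => N0 * l) atTop atTop :=
    tendsto_atTop_mono (fun l => Nat.le_mul_of_pos_left l hN0) tendsto_id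
  have hlim : Tendsto (fun M : ℕ => ∑ j ∈ range (p.natDegree + 1), p.coeff j / ((j : ℝ) + 1) ^ 2 *
      (∑ m ∈ Fintype.piFinset (fun _ : Fin (2 * j + 1 + 1) => Icc (-(d : ℤ)) d),
        if ∑ i, m i = 0 then (∏ i, b (m i)) * ((∑ x ∈ range (2 * M),
          (|∏ i, wt (2 * M) ((x : ℤ) + ∑ j ∈ Iio i, m j)|
            - ∏ i, wt (2 * M) ((x : ℤ) + ∑ j ∈ Iio i, m j)) : ℝ) : ℂ) else 0).re) atTop
      (𝓝 (∑ j ∈ range (p.natDegree + 1),
        p.coeff j / ((j : ℝ) + 1) ^ 2 * (2 * Zd d (2 * j + 1 + 1) b).re)) := by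
    refine tendsto_finsetSum _ fun j _ => Tendsto.const_mul _ ?_
    refine (Complex.continuous_re.tendsto _).comp ?_
    rw [Zd, mul_sum]
    refine tendsto_finsetSum _ fun m _ => ?_
    split_ifs with hm
    · have := ((Complex.continuous_ofReal.tendsto _).comp
        (lim_N (L := 2 * j + 1 + 1) ⟨j + 1, by ring⟩ m)).const_mul (∏ i, b (m i))
      convert this using 2
      · rfl
      · push_cast; ring
    · simp
  have key := ge_of_tendsto (hlim.comp hM) (b := 0) (by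
    filter_upwards [eventually_gt_atTop ((2 * p.natDegree + 2) * d)] with l hl
    have hl0 : 0 < l := lt_of_le_of_lt (Nat.zero_le _) hl
    have hpos : 0 < 2 * (N0 * l) := by positivity
    have : NeZero (2 * (N0 * l)) := ⟨hpos.ne'⟩
    exact cyc_ineq d b hre (hs _ hpos ⟨2 * l, by ring⟩) p hp
      (hl.trans_le ((Nat.le_mul_of_pos_left l hN0).trans (Nat.le_mul_of_pos_left _ two_pos))))
  have e : ∑ j ∈ range (p.natDegree + 1),
        p.coeff j / ((j : ℝ) + 1) ^ 2 * (2 * Zd d (2 * j + 1 + 1) b).re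
      = 2 * ∑ j ∈ range (p.natDegree + 1),
        p.coeff j / ((j : ℝ) + 1) ^ 2 * (Zd d (2 * j + 1 + 1) b).re := by
    rw [mul_sum]
    refine sum_congr rfl fun j _ => ?_
    simp only [Complex.mul_re, Complex.re_ofNat, Complex.im_ofNat]; ring
  rw [e] at key
  linarith

theorem sym_ineq (d : ℕ) (b : ℤ → ℂ) (hb : ∀ n, b (-n) = conj (b n)) (p : Polynomial ℝ)
    (hp : ∀ x, 0 ≤ x → 0 ≤ p.eval x) :
    0 ≤ ∑ j ∈ range (p.natDegree + 1),
      p.coeff j / ((j : ℝ) + 1) ^ 2 * (Zd d (2 * j + 1 + 1) b).re := by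
  obtain ⟨B, hB, hlim⟩ := dens d b hb
  refine ge_of_tendsto' (f := fun l => ∑ j ∈ range (p.natDegree + 1),
      p.coeff j / ((j : ℝ) + 1) ^ 2 * (Zd d (2 * j + 1 + 1) (B l)).re) (x := atTop) ?_
    fun l => good_ineq d _ (hB l) p hp
  refine tendsto_finsetSum _ fun j _ => Tendsto.const_mul _ ?_
  refine (Complex.continuous_re.tendsto _).comp ?_
  refine tendsto_finsetSum _ fun m hm => ?_
  split_ifs with h
  · exact Tendsto.const_mul _ (tendsto_finsetProd _ fun i _ =>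
      hlim _ (Fintype.mem_piFinset.1 hm i))
  · exact tendsto_const_nhds

theorem tendsto_Zd {L : ℕ} (b : ℤ → ℂ) (Z : ℂ)
    (hZ : HasSum (fun m : {m : Fin L → ℤ // ∑ i, m i = 0} =>
      (Ncoef m.1 : ℂ) * ∏ i, b (m.1 i)) Z) :
    Tendsto (fun d : ℕ => Zd d L b) atTop (𝓝 Z) := by
  let box : ℕ → Finset {m : Fin L → ℤ // ∑ i, m i = 0} := fun d =>
    (Fintype.piFinset (fun _ : Fin L => Icc (-(d : ℤ)) d)).subtype _
  have hbox : Tendsto box atTop atTop := by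
    rw [tendsto_atTop]
    intro t
    simp only [subset_iff]
    rw [eventually_all_finset]
    intro q _
    filter_upwards [eventually_ge_atTop (∑ i, (q.1 i).natAbs)] with R hR
    rw [mem_subtype, Fintype.mem_piFinset]
    intro i
    have : (q.1 i).natAbs ≤ ∑ i, (q.1 i).natAbs :=
      single_le_sum (f := fun i => (q.1 i).natAbs) (fun _ _ => Nat.zero_le _) (mem_univ i)
    rw [mem_Icc]; omega
  refine (Tendsto.comp hZ hbox).congr fun d => ?_
  simp only [Function.comp, box]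
  rw [sum_subtype_eq_sum_filter (fun m : Fin L → ℤ => (Ncoef m : ℂ) * ∏ i, b (m i)), sum_filter,
    Zd]

theorem zero_case (b : ℤ → ℂ) (hb : ∀ n, b (-n) = conj (b n)) (Z : ℕ → ℂ)
    (hZ : ∀ j, HasSum (pathW (r := 2 * j + 1) b) (Z j)) (p : Polynomial ℝ)
    (hp : ∀ x, 0 ≤ x → 0 ≤ p.eval x) :
    0 ≤ ∑ j ∈ range (p.natDegree + 1), p.coeff j / ((j : ℝ) + 1) ^ 2 * (Z j).re := by
  refine ge_of_tendsto' (f := fun d : ℕ => ∑ j ∈ range (p.natDegree + 1),
      p.coeff j / ((j : ℝ) + 1) ^ 2 * (Zd d (2 * j + 1 + 1) b).re) (x := atTop) ?_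
    fun d => sym_ineq d b hb p hp
  refine tendsto_finsetSum _ fun j _ => Tendsto.const_mul _ ?_
  exact (Complex.continuous_re.tendsto _).comp
    (tendsto_Zd b _ (hasSum_Ncoef ⟨j + 1, by ring⟩ b _ (hZ j)))

theorem pos_case (b : ℤ → ℂ) (δ : ℝ) (hδ : 0 ≤ δ)
    (hX : ∀ S : Finset ℤ, (0 : ℤ) ∉ S → (Xm b S - (δ : ℂ) • (1 : Matrix S S ℂ)).PosSemidef)
    (Z : ℕ → ℂ) (hZ : ∀ j, HasSum (pathW (r := 2 * j + 1) b) (Z j)) (p : Polynomial ℝ)
    (hp : ∀ x, δ ^ 2 ≤ x → 0 ≤ p.eval x) :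
    0 ≤ ∑ j ∈ range (p.natDegree + 1), p.coeff j / ((j : ℝ) + 1) ^ 2 * (Z j).re := by
  refine ge_of_tendsto' (f := fun R : ℕ => ∑ j ∈ range (p.natDegree + 1),
      p.coeff j / ((j : ℝ) + 1) ^ 2 *
        (∑ q : Fin (2 * j + 1 + 1) → ((Icc (-(R : ℤ)) R).erase 0),
          pathW b (fun i => (q i : ℤ))).re) (x := atTop) ?_ fun R => ?_
  · refine tendsto_finsetSum _ fun j _ => Tendsto.const_mul _ ?_
    exact (Complex.continuous_re.tendsto _).comp (tendsto_trunc0 b _ (hZ j))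
  · set S : Finset ℤ := (Icc (-(R : ℤ)) R).erase 0 with hS
    have h1 := hX S (notMem_erase _ _)
    have h2 : (Xm b S).PosSemidef := by
      have := h1.add ((Matrix.PosSemidef.one (n := S) (R := ℂ)).smul
        (show (0 : ℂ) ≤ δ by exact_mod_cast hδ))
      rwa [sub_add_cancel] at this
    obtain ⟨C, hC⟩ := CStarAlgebra.nonneg_iff_eq_star_mul_self.1 h2.nonneg
    have hC' : C.conjTranspose * 1 * C = Xm b S := by
      rw [Matrix.mul_one, hC, Matrix.star_eq_conjTranspose]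
    set H : Matrix S S ℂ := Matrix.diagonal (fun i : S => (sg i : ℂ)) with hH
    have hHh : H.conjTranspose = H := by
      rw [hH, Matrix.diagonal_conjTranspose]; congr 1; ext i; simp
    have hH2 : H * H = 1 := by
      rw [hH, Matrix.diagonal_mul_diagonal, ← Matrix.diagonal_one]; congr 1; ext i
      rcases sg_cases i with h | h <;> rw [h] <;> simp
    have key := mt C 1 H Matrix.conjTranspose_one hHh hH2
      (by rw [Matrix.one_mul]; exact Matrix.isHermitian_mul_mul_conjTranspose _ hHh) δ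
      (Or.inr ⟨hδ, by rw [hC']; exact h1⟩) p hp
    refine key.trans_eq (sum_congr rfl fun j _ => ?_)
    rw [hC', hH, trace_diff]

theorem sign_const (a : ℝ → ℝ) (ha : Continuous a) (δ : ℝ) (hδ : 0 < δ) (h : ∀ θ, δ ≤ |a θ|) :
    (∀ θ, δ ≤ a θ) ∨ ∀ θ, δ ≤ -a θ := by
  by_contra hc
  rw [not_or, not_forall, not_forall] at hc
  obtain ⟨⟨s, hs⟩, ⟨t, ht⟩⟩ := hc
  have h1 : a s ≤ 0 := by
    rcases le_abs.1 (h s) with h' | h'
    · exact absurd h' hs
    · linarith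
  have h2 : 0 ≤ a t := by
    rcases le_abs.1 (h t) with h' | h'
    · linarith
    · exact absurd h' ht
  obtain ⟨u, hu⟩ := intermediate_value_univ s t ha ⟨h1, h2⟩
  have := h u
  rw [hu, abs_zero] at this
  linarith

theorem main_moment (a : ℝ → ℝ) (ha : ContDiff ℝ (⊤ : ℕ∞) a)
    (hp : Function.Periodic a (2 * Real.pi)) (δ : ℝ) (hδ : 0 ≤ δ) (h : ∀ θ, δ ≤ |a θ|) :
    ∃ ν : MeasureTheory.Measure ℝ, ν (Set.Iio (δ ^ 2)) = 0 ∧ ∀ j : ℕ,
      MeasureTheory.Integrable (fun x : ℝ => x ^ j) ν ∧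
      HasSum (fun m : {m : Fin (2 * j + 1 + 1) → ℤ // ∑ i, m i = 0} =>
        (Ncoef m.1 : ℂ) * ∏ i, coeff a (m.1 i))
        ((((j : ℝ) + 1) ^ 2 * ∫ x, x ^ j ∂ν : ℝ) : ℂ) := by
  have hev : ∀ j : ℕ, Even (2 * j + 1 + 1) := fun j => ⟨j + 1, by ring⟩
  set Z : ℕ → ℂ := fun j => ∑' q, pathW (r := 2 * j + 1) (coeff a) q with hZd
  have hZ : ∀ j, HasSum (pathW (r := 2 * j + 1) (coeff a)) (Z j) := fun j =>
    (pathW_summable (hev j) _ summable_inv_sq (coeff_summable a ha hp)).hasSum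
  have key : ∀ p : Polynomial ℝ, (∀ x, δ ^ 2 ≤ x → 0 ≤ p.eval x) →
      0 ≤ ∑ j ∈ range (p.natDegree + 1), p.coeff j / ((j : ℝ) + 1) ^ 2 * (Z j).re := by
    intro p hpp
    rcases hδ.eq_or_lt with h0 | h0
    · exact zero_case _ (coeff_neg a) Z hZ p (by simpa [← h0] using hpp)
    · rcases sign_const a ha.continuous δ h0 h with h1 | h1
      · exact pos_case _ δ hδ (Xm_ge a ha.continuous δ hδ h1) Z hZ p hpp
      · refine pos_case _ δ hδ (Xm_ge (fun θ => -a θ) ha.continuous.neg δ hδ h1) Z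
          (fun j => ?_) p hpp
        have e : ∀ n, coeff (fun θ => -a θ) n = -coeff a n := by
          intro n
          simp only [coeff, Complex.ofReal_neg, neg_mul, intervalIntegral.integral_neg, mul_neg]
        convert hZ j using 1
        ext q
        simp only [pathW, e]
        rw [prod_neg, card_univ, Fintype.card_fin, (hev j).neg_one_pow, one_mul]
  obtain ⟨ν, h1, h2⟩ := haviland (δ ^ 2) (fun j => (Z j).re / ((j : ℝ) + 1) ^ 2) (fun p hpp =>
    (key p hpp).trans_eq (sum_congr rfl fun j _ => by ring))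
  refine ⟨ν, h1, fun j => ⟨(h2 j).1, ?_⟩⟩
  rw [(h2 j).2, mul_div_cancel₀ _ (by positivity), pathW_real (hev j) _ (coeff_neg a) _ (hZ j)]
  exact hasSum_Ncoef (hev j) _ _ (hZ j)

end Pool.Agent.P.MP_2eaf66_an.Mo
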